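import Mathlib

open Filter Topology Metric Set
open scoped ComplexConjugate InnerProductSpace

namespace Pool.Agent.Lib.MP_af63cc_an

variable {H : Type} [NormedAddCommGroup H] [InnerProductSpace ℂ H] [CompleteSpace H]
  (e : HilbertBasis ℤ ℂ H)

noncomputable def Pr (S : Set ℤ) : H →L[ℂ] H :=
  (Submodule.span ℂ (e '' Sᶜ))ᗮ.starProjection

def In (S : Set ℤ) (f : H) : Prop := ∀ k ∉ S, ⟪e k, f⟫_ℂ = 0

omit [CompleteSpace H] in
theorem ext_coef {f g : H} (h : ∀ k, ⟪e k, f⟫_ℂ = ⟪e k, g⟫_ℂ) : f = g := by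
  apply e.repr.injective
  ext k
  rw [e.repr_apply_apply, e.repr_apply_apply, h]

omit [CompleteSpace H] in
theorem mem_iff_In {S : Set ℤ} {f : H} : f ∈ (Submodule.span ℂ (e '' Sᶜ))ᗮ ↔ In e S f := by
  constructor
  · intro h k hk
    exact h _ (Submodule.subset_span ⟨k, hk, rfl⟩)
  · intro h u hu
    induction hu using Submodule.span_induction with
    | mem x hx => obtain ⟨k, hk, rfl⟩ := hx; exact h k hk
    | zero => simp
    | add x y _ _ h1 h2 => rw [inner_add_left, h1, h2, add_zero]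
    | smul c x _ h1 => rw [inner_smul_left, h1, mul_zero]

omit [CompleteSpace H] in
theorem inner_e (i j : ℤ) : ⟪e i, e j⟫_ℂ = if i = j then 1 else 0 :=
  orthonormal_iff_ite.mp e.orthonormal i j

omit [CompleteSpace H] in
theorem In_e {S : Set ℤ} {k : ℤ} (hk : k ∈ S) : In e S (e k) := fun j hj => by
  rw [inner_e, if_neg]
  rintro rfl
  exact hj hk

theorem In_Pr (S : Set ℤ) (f : H) : In e S (Pr e S f) :=
  (mem_iff_In e).mp (Submodule.starProjection_apply_mem _ _)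

theorem Pr_of_In {S : Set ℤ} {f : H} (h : In e S f) : Pr e S f = f :=
  Submodule.starProjection_eq_self_iff.mpr ((mem_iff_In e).mpr h)

theorem Pr_adj (S : Set ℤ) (u f : H) : ⟪u, Pr e S f⟫_ℂ = ⟪Pr e S u, f⟫_ℂ :=
  (Submodule.inner_starProjection_left_eq_right _ _ _).symm

theorem norm_Pr_le (S : Set ℤ) (f : H) : ‖Pr e S f‖ ≤ ‖f‖ :=
  Submodule.norm_starProjection_apply_le _ _

theorem coef_Pr_mem {S : Set ℤ} {k : ℤ} (hk : k ∈ S) (f : H) :
    ⟪e k, Pr e S f⟫_ℂ = ⟪e k, f⟫_ℂ := by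
  rw [Pr_adj, Pr_of_In e (In_e e hk)]

theorem coef_Pr_not {S : Set ℤ} {k : ℤ} (hk : k ∉ S) (f : H) : ⟪e k, Pr e S f⟫_ℂ = 0 :=
  In_Pr e S f k hk

open Classical in
theorem coef_Pr (S : Set ℤ) (k : ℤ) (f : H) :
    ⟪e k, Pr e S f⟫_ℂ = if k ∈ S then ⟪e k, f⟫_ℂ else 0 := by
  split_ifs with h
  exacts [coef_Pr_mem e h f, coef_Pr_not e h f]

theorem Pr_eq_zero {S S' : Set ℤ} {f : H} (h : In e S f) (hd : ∀ k ∈ S', k ∉ S) :
    Pr e S' f = 0 := ext_coef e fun k => by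
  rw [coef_Pr, inner_zero_right]
  split_ifs with hk
  exacts [h k (hd k hk), rfl]

omit [CompleteSpace H] in
theorem tendsto_of_basis {ι F : Type} [NormedAddCommGroup F] [NormedSpace ℂ F] {l : Filter ι}
    (T : ι → H →L[ℂ] F) (T0 : H →L[ℂ] F) {C : ℝ} (hC : ∀ᶠ i in l, ∀ f, ‖T i f‖ ≤ C * ‖f‖)
    (h : ∀ k, Tendsto (fun i => T i (e k)) l (𝓝 (T0 (e k)))) (f : H) :
    Tendsto (fun i => T i f) l (𝓝 (T0 f)) := by
  have h1 : ∀ g ∈ Submodule.span ℂ (range e), Tendsto (fun i => T i g) l (𝓝 (T0 g)) := by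
    intro g hg
    induction hg using Submodule.span_induction with
    | mem x hx => obtain ⟨k, rfl⟩ := hx; exact h k
    | zero => simpa using tendsto_const_nhds
    | add x y _ _ h1 h2 => simpa using h1.add h2
    | smul c x _ h1 => simpa using h1.const_smul c
  rw [Metric.tendsto_nhds]
  intro ε hε
  have hf : f ∈ closure (Submodule.span ℂ (range e) : Set H) := by
    rw [← Submodule.topologicalClosure_coe, e.dense_span]
    trivial
  have hp : 0 < |C| + ‖T0‖ + 1 := by positivity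
  obtain ⟨g, hg, hfg⟩ := Metric.mem_closure_iff.mp hf (ε / 2 / (|C| + ‖T0‖ + 1)) (by positivity)
  filter_upwards [hC, Metric.tendsto_nhds.mp (h1 g hg) (ε / 2) (by positivity)] with i a1 a2
  rw [dist_eq_norm] at *
  have a3 : ‖T i (f - g)‖ ≤ |C| * ‖f - g‖ :=
    (a1 _).trans (mul_le_mul_of_nonneg_right (le_abs_self C) (norm_nonneg _))
  have a4 := T0.le_opNorm (f - g)
  have a5 : T i f - T0 f = T i (f - g) + (T i g - T0 g) - T0 (f - g) := by
    simp only [map_sub]; abel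
  have a6 := (lt_div_iff₀ hp).mp hfg
  rw [a5]
  have a7 := norm_sub_le (T i (f - g) + (T i g - T0 g)) (T0 (f - g))
  have a8 := norm_add_le (T i (f - g)) (T i g - T0 g)
  have a9 := norm_nonneg (f - g)
  linarith

theorem tendsto_Pr {ι : Type} {l : Filter ι} {W : ι → Set ℤ} {S : Set ℤ}
    (hW : ∀ k, ∀ᶠ i in l, (k ∈ W i ↔ k ∈ S)) (f : H) :
    Tendsto (fun i => Pr e (W i) f) l (𝓝 (Pr e S f)) := by
  refine tendsto_of_basis e (fun i => Pr e (W i)) (Pr e S) (C := 1)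
    (Eventually.of_forall fun i f => by simpa using norm_Pr_le e _ f) (fun k => ?_) f
  refine tendsto_const_nhds.congr' ((hW k).mono fun i hi => ?_)
  by_cases hk : k ∈ S
  · simp only [Pr_of_In e (In_e e hk), Pr_of_In e (In_e e (hi.mpr hk))]
  · simp only
    rw [Pr_eq_zero e (In_e e (mem_singleton k)) fun j hj hjk => hk (hjk ▸ hj),
      Pr_eq_zero e (In_e e (mem_singleton k)) fun j hj hjk => hk (hi.mp (hjk ▸ hj))]

theorem exists_weak {ι : Type} (U : Ultrafilter ι) (f : ι → H) {C : ℝ}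
    (hC : ∀ᶠ i in U, ‖f i‖ ≤ C) :
    ∃ g : H, ∀ v, Tendsto (fun i => ⟪v, f i⟫_ℂ) U (𝓝 ⟪v, g⟫_ℂ) := by
  let F : ι → WeakDual ℂ H := fun i => StrongDual.toWeakDual (InnerProductSpace.toDual ℂ H (f i))
  obtain ⟨φ, -, hφ⟩ := (WeakDual.isCompact_closedBall (0 : StrongDual ℂ H) C).ultrafilter_le_nhds
    (U.map F) (by
      rw [Ultrafilter.coe_map, le_principal_iff, mem_map]
      filter_upwards [hC] with i hi
      simpa [F] using hi)
  refine ⟨(InnerProductSpace.toDual ℂ H).symm (WeakDual.toStrongDual φ), fun v => ?_⟩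
  have h1 := ((WeakDual.eval_continuous v).tendsto φ).comp
    (show Tendsto F U (𝓝 φ) from hφ)
  have h2 := (Complex.continuous_conj.tendsto _).comp h1
  rw [← inner_conj_symm, InnerProductSpace.toDual_symm_apply]
  refine h2.congr fun i => ?_
  simp [F]

omit [CompleteSpace H] in
theorem tendsto_inner_weak {ι : Type} {l : Filter ι} {u f : ι → H} {u0 g : H} {C : ℝ}
    (hC : ∀ᶠ i in l, ‖f i‖ ≤ C) (hu : Tendsto u l (𝓝 u0))
    (hf : Tendsto (fun i => ⟪u0, f i⟫_ℂ) l (𝓝 ⟪u0, g⟫_ℂ)) :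
    Tendsto (fun i => ⟪u i, f i⟫_ℂ) l (𝓝 ⟪u0, g⟫_ℂ) := by
  have h1 : Tendsto (fun i => ⟪u i - u0, f i⟫_ℂ) l (𝓝 0) := by
    have h2 := (tendsto_iff_norm_sub_tendsto_zero.mp hu).mul_const C
    rw [zero_mul] at h2
    refine squeeze_zero_norm' (hC.mono fun i hi => ?_) h2
    exact (norm_inner_le_norm _ _).trans (mul_le_mul_of_nonneg_left hi (norm_nonneg _))
  simpa [inner_sub_left] using h1.add hf

theorem weak_solves {ι : Type} {l : Filter ι} [l.NeBot] {W : ι → Set ℤ} {S : Set ℤ}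
    (hW : ∀ k, ∀ᶠ i in l, (k ∈ W i ↔ k ∈ S)) {A A' : ι → H →L[ℂ] H} {A0 A0' : H →L[ℂ] H}
    (ha : ∀ i u f, ⟪u, A i f⟫_ℂ = ⟪A' i u, f⟫_ℂ) (ha0 : ∀ u f, ⟪u, A0 f⟫_ℂ = ⟪A0' u, f⟫_ℂ)
    (hA : ∀ u, Tendsto (fun i => A' i u) l (𝓝 (A0' u))) {f : ι → H} {g w : H} {C : ℝ}
    (hC : ∀ᶠ i in l, ‖f i‖ ≤ C) (hf : ∀ v, Tendsto (fun i => ⟪v, f i⟫_ℂ) l (𝓝 ⟪v, g⟫_ℂ))
    (hi : ∀ᶠ i in l, In e (W i) (f i))
    (hw : Tendsto (fun i => Pr e (W i) (A i (f i))) l (𝓝 w)) :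
    In e S g ∧ Pr e S (A0 g) = w := by
  refine ⟨fun k hk => tendsto_nhds_unique (hf (e k)) (tendsto_const_nhds.congr' ?_),
    ext_coef e fun k => ?_⟩
  · filter_upwards [hW k, hi] with i h1 h2
    exact (h2 k fun h => hk (h1.mp h)).symm
  refine tendsto_nhds_unique ?_ (tendsto_const_nhds.inner hw)
  by_cases hk : k ∈ S
  · rw [coef_Pr_mem e hk, ha0]
    refine (tendsto_inner_weak hC (hA (e k)) (hf _)).congr' ((hW k).mono fun i h1 => ?_)
    simp only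
    rw [coef_Pr_mem e (h1.mpr hk), ha]
  · rw [coef_Pr_not e hk]
    refine tendsto_const_nhds.congr' ((hW k).mono fun i h1 => ?_)
    exact (coef_Pr_not e (fun h => hk (h1.mp h)) _).symm

omit [CompleteSpace H] in
theorem tendsto_apply {ι : Type} {l : Filter ι} {A : ι → H →L[ℂ] H} {C : ℝ}
    (hC : ∀ i f, ‖A i f‖ ≤ C * ‖f‖) {u : ι → H} {u0 w : H} (hu : Tendsto u l (𝓝 u0))
    (h : Tendsto (fun i => A i u0) l (𝓝 w)) : Tendsto (fun i => A i (u i)) l (𝓝 w) := by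
  have h1 : Tendsto (fun i => A i (u i - u0)) l (𝓝 0) := by
    have h2 := (tendsto_iff_norm_sub_tendsto_zero.mp hu).const_mul C
    rw [mul_zero] at h2
    exact squeeze_zero_norm (fun i => hC i _) h2
  simpa using h1.add h

theorem conv_sol {W : ℕ → Set ℤ} {S : Set ℤ}
    (hW : ∀ k, ∀ᶠ i in atTop, (k ∈ W i ↔ k ∈ S)) {A A' : ℕ → H →L[ℂ] H} {A0 A0' : H →L[ℂ] H}
    (ha : ∀ i u f, ⟪u, A i f⟫_ℂ = ⟪A' i u, f⟫_ℂ) (ha0 : ∀ u f, ⟪u, A0 f⟫_ℂ = ⟪A0' u, f⟫_ℂ)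
    (hA : ∀ u, Tendsto (fun i => A i u) atTop (𝓝 (A0 u)))
    (hA' : ∀ u, Tendsto (fun i => A' i u) atTop (𝓝 (A0' u))) {C : ℝ}
    (hb : ∀ i f, ‖A i f‖ ≤ C * ‖f‖) {D : ℝ}
    (hs : ∀ᶠ i in atTop, ∀ f, In e (W i) f → ‖f‖ ≤ D * ‖Pr e (W i) (A i f)‖)
    {f v : ℕ → H} {v0 : H} (hv : Tendsto v atTop (𝓝 v0))
    (hf : ∀ᶠ i in atTop, In e (W i) (f i) ∧ Pr e (W i) (A i (f i)) = Pr e (W i) (v i)) :
    ∃ g, Tendsto f atTop (𝓝 g) := by
  have hP : ∀ {u : ℕ → H} {u0 : H}, Tendsto u atTop (𝓝 u0) →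
      Tendsto (fun i => Pr e (W i) (u i)) atTop (𝓝 (Pr e S u0)) := fun hu =>
    tendsto_apply (C := 1) (fun i f => by simpa using norm_Pr_le e _ f) hu (tendsto_Pr e hW _)
  have hbd : ∀ᶠ i in atTop, ‖f i‖ ≤ |D| * (‖v0‖ + 1) := by
    filter_upwards [hs, hf, hv.norm.eventually (gt_mem_nhds (lt_add_one _))] with i h1 h2 h3
    refine (h1 _ h2.1).trans ?_
    rw [h2.2]
    exact mul_le_mul (le_abs_self D) ((norm_Pr_le e _ _).trans h3.le) (norm_nonneg _)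
      (abs_nonneg D)
  have hU := Nat.hyperfilter_le_atTop
  obtain ⟨g, hg⟩ := exists_weak (hyperfilter ℕ) f (hbd.filter_mono hU)
  have hw : Tendsto (fun i => Pr e (W i) (A i (f i))) atTop (𝓝 (Pr e S v0)) :=
    (hP hv).congr' (hf.mono fun i hi => hi.2.symm)
  obtain ⟨g1, g2⟩ := weak_solves e (fun k => (hW k).filter_mono hU) ha ha0
    (fun u => (hA' u).mono_left hU) (hbd.filter_mono hU) hg
    ((hf.mono fun i hi => hi.1).filter_mono hU) (hw.mono_left hU)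
  have h1 : Tendsto (fun i => Pr e (W i) g) atTop (𝓝 g) := by
    simpa [Pr_of_In e g1] using tendsto_Pr e hW g
  have h2 := (hw.sub (hP (tendsto_apply hb h1 (hA g)))).norm.const_mul D
  rw [g2, sub_self, norm_zero, mul_zero] at h2
  have h3 : Tendsto (fun i => f i - Pr e (W i) g) atTop (𝓝 0) := by
    refine squeeze_zero_norm' ?_ h2
    filter_upwards [hs, hf] with i a1 a2
    have := a1 (f i - Pr e (W i) g) fun k hk => by
      rw [inner_sub_right, a2.1 k hk, In_Pr e _ _ k hk, sub_zero]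
    simpa using this
  exact ⟨g, by simpa using h3.add h1⟩

end Pool.Agent.Lib.MP_af63cc_an
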