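import Mathlib

open scoped Real ContDiff

namespace Pool.Agent.Lib.MP_af63cc_an

/-- The Fourier coefficient `a_k` of a function on the unit circle. -/
noncomputable def coef (a : Circle → ℂ) (k : ℤ) : ℂ :=
  1 / (2 * π) * ∫ x in (0 : ℝ)..2 * π, a (Circle.exp x) * Complex.exp (-(Complex.I * k * x))

/-- The `n × n` Toeplitz determinant `D_n(a)`. -/
noncomputable def toepDet (n : ℕ) (a : Circle → ℂ) : ℂ :=
  (Matrix.of fun j k : Fin n => coef a (((j : ℕ) : ℤ) - ((k : ℕ) : ℤ))).det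

/-- The symbol `b(z) ∏_r (-z / t_r) ^ β_r`, principal branch. -/
noncomputable def symb {R : ℕ} (b : Circle → ℂ) (β : Fin R → ℂ) (t : Fin R → Circle)
    (z : Circle) : ℂ :=
  b z * ∏ r, (-(z : ℂ) / (t r : ℂ)) ^ β r

/-- Smooth, nonvanishing, winding number zero. -/
def Admissible (b : Circle → ℂ) : Prop :=
  (ContDiff ℝ ∞ fun x : ℝ => b (Circle.exp x)) ∧ (∀ z, b z ≠ 0) ∧
    ∫ x in (0 : ℝ)..2 * π, deriv (fun y : ℝ => b (Circle.exp y)) x / b (Circle.exp x) = 0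

end Pool.Agent.Lib.MP_af63cc_an
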