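import Mathlib

open Matrix Filter Topology Metric
open scoped ComplexConjugate ComplexOrder

namespace Pool.Agent.Lib.MP_af63cc_an

variable {m : Type} [Fintype m] [DecidableEq m]

noncomputable def nuL (m : Type) [Fintype m] :
    Matrix m m ℂ →ₗ[ℂ] ℂ × EuclideanSpace ℂ (m × m) where
  toFun N := (N.trace, WithLp.toLp 2 fun p => N p.1 p.2)
  map_add' A B := by
    refine Prod.ext (by simp) ?_
    ext p; simp
  map_smul' c A := by
    refine Prod.ext (by simp) ?_
    ext p; simp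

noncomputable def nu (N : Matrix m m ℂ) : ℝ := ‖nuL m N‖

theorem norm_det_le (N : Matrix m m ℂ) {c : ℝ} (h : nu N ≤ c) :
    ‖(1 + N).det‖ ≤ Real.exp (c + c ^ 2 / 2) := by
  have h1 : ‖N.trace‖ ≤ c := (norm_fst_le (nuL m N)).trans h
  have h2 : ‖(nuL m N).2‖ ≤ c := (norm_snd_le (nuL m N)).trans h
  have h3 : (Nᴴ * N).trace.re ≤ c ^ 2 := by
    have e : (Nᴴ * N).trace.re = ‖(nuL m N).2‖ ^ 2 := by
      rw [EuclideanSpace.norm_sq_eq, Fintype.sum_prod_type_right]
      simp [nuL, trace, mul_apply, Complex.sq_norm, Complex.normSq_apply]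
    rw [e]
    exact pow_le_pow_left₀ (norm_nonneg _) h2 2
  have hP := posSemidef_conjTranspose_mul_self (1 + N)
  have hd := hP.1.det_eq_prod_eigenvalues
  have ht := congrArg Complex.re hP.1.trace_eq_sum_eigenvalues
  have e1 : ‖(1 + N).det‖ ^ 2 = ∏ i, hP.1.eigenvalues i := by
    rw [det_mul, det_conjTranspose] at hd
    have : ((‖(1 + N).det‖ ^ 2 : ℝ) : ℂ) = ((∏ i, hP.1.eigenvalues i : ℝ) : ℂ) := by
      push_cast
      rw [← Complex.conj_mul']
      exact hd
    exact_mod_cast this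
  have e2 : ∑ i, hP.1.eigenvalues i = Fintype.card m + 2 * N.trace.re + (Nᴴ * N).trace.re := by
    have a : ((1 + N)ᴴ * (1 + N)).trace.re =
        Fintype.card m + 2 * N.trace.re + (Nᴴ * N).trace.re := by
      simp only [conjTranspose_add, conjTranspose_one, add_mul, mul_add, one_mul, mul_one,
        trace_add, trace_one, trace_conjTranspose, Complex.add_re, Complex.natCast_re]
      simp
      ring
    rw [← a, ht]
    simp
  have e3 : ∏ i, hP.1.eigenvalues i ≤ Real.exp (∑ i, (hP.1.eigenvalues i - 1)) := by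
    rw [Real.exp_sum]
    exact Finset.prod_le_prod (fun i _ => hP.eigenvalues_nonneg i)
      fun i _ => by linarith [Real.add_one_le_exp (hP.1.eigenvalues i - 1)]
  rw [Finset.sum_sub_distrib, e2] at e3
  have h4 : N.trace.re ≤ c := (Complex.re_le_norm _).trans h1
  refine (sq_le_sq₀ (norm_nonneg _) (Real.exp_pos _).le).mp ?_
  rw [e1, ← Real.exp_nat_mul]
  refine e3.trans (Real.exp_le_exp.mpr ?_)
  simp
  linarith

omit [DecidableEq m] in
theorem nu_add_smul (A B : Matrix m m ℂ) (z : ℂ) : nu (A + z • B) ≤ nu A + ‖z‖ * nu B := by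
  unfold nu
  rw [map_add, map_smul, ← norm_smul]
  exact norm_add_le _ _

theorem det_pert (A B : Matrix m m ℂ) {α τ : ℝ} (hA : nu A ≤ α) (hB : nu B ≤ τ) (h0 : 0 < τ)
    (h1 : τ < 1) :
    ‖(1 + (A + B)).det - (1 + A).det‖ ≤ 2 * Real.exp ((α + 1) + (α + 1) ^ 2 / 2) * τ := by
  set f : ℂ → ℂ := fun z => (1 + (A + z • B)).det with hf
  have hd : Differentiable ℂ f := by
    simp only [hf, det_apply', Matrix.add_apply, Matrix.smul_apply, smul_eq_mul]
    fun_prop
  have hb : ∀ z ∈ ball (0 : ℂ) τ⁻¹, ‖f z‖ ≤ Real.exp ((α + 1) + (α + 1) ^ 2 / 2) := fun z hz => by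
    refine norm_det_le _ ((nu_add_smul A B z).trans (add_le_add hA ?_))
    rw [mem_ball_zero_iff] at hz
    calc _ ≤ τ⁻¹ * τ := mul_le_mul hz.le hB (norm_nonneg _) (inv_nonneg.mpr h0.le)
      _ = 1 := inv_mul_cancel₀ h0.ne'
  have hR : 0 < τ⁻¹ := inv_pos.mpr h0
  have key := Complex.dist_le_div_mul_dist_of_mapsTo_ball (c := 0) (z := 1) (R₁ := τ⁻¹)
    (R₂ := 2 * Real.exp ((α + 1) + (α + 1) ^ 2 / 2)) hd.differentiableOn
    (fun z hz => by
      rw [mem_closedBall, dist_eq_norm]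
      linarith [norm_sub_le (f z) (f 0), hb z hz, hb 0 (mem_ball_self hR)])
    (by rw [mem_ball_zero_iff, norm_one]; exact (one_lt_inv₀ h0).mpr h1)
  simpa [hf, dist_eq_norm, div_inv_eq_mul] using key

noncomputable def rk (X Y : EuclideanSpace ℂ m) : Matrix m m ℂ := of fun p q => X p * conj (Y q)

omit [DecidableEq m] in
theorem nu_rk (X Y : EuclideanSpace ℂ m) : nu (rk X Y) ≤ ‖X‖ * ‖Y‖ := by
  unfold nu
  rw [Prod.norm_def]
  refine max_le ?_ (le_of_eq ?_)
  · have : (nuL m (rk X Y)).1 = inner ℂ Y X := by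
      simp [nuL, rk, trace, PiLp.inner_apply]
    rw [this, mul_comm]
    exact norm_inner_le_norm _ _
  · refine (sq_eq_sq₀ (norm_nonneg _) (by positivity)).mp ?_
    rw [mul_pow, EuclideanSpace.norm_sq_eq, EuclideanSpace.norm_sq_eq, EuclideanSpace.norm_sq_eq,
      Finset.sum_mul_sum, Fintype.sum_prod_type]
    simp [nuL, rk, mul_pow]

omit [DecidableEq m] in
theorem nu_hasSum {J : Type} {f : J → Matrix m m ℂ} {N : Matrix m m ℂ} (h : HasSum f N)
    {c : J → ℝ} {a : ℝ} (hc : HasSum c a) (hf : ∀ j, nu (f j) ≤ c j) : nu N ≤ a :=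
  (h.map (nuL m) (nuL m).continuous_of_finiteDimensional).norm_le_of_bounded hc hf

theorem det_finite {J : Type} [DecidableEq J] (X Y : J → EuclideanSpace ℂ m) (F : Finset J) :
    (1 + ∑ j ∈ F, rk (X j) (Y j)).det =
      (1 + of fun i j : F => inner ℂ (Y i) (X j) : Matrix F F ℂ).det := by
  have e1 : ∑ j ∈ F, rk (X j) (Y j) =
      (of fun (p : m) (j : F) => X j p) * of fun (j : F) (q : m) => conj (Y j q) := by
    ext p q
    simp only [Matrix.sum_apply, rk, of_apply, mul_apply]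
    exact (Finset.sum_coe_sort F fun j => X j p * conj (Y j q)).symm
  rw [e1, det_one_add_mul_comm]
  congr 2
  ext i j
  simp [mul_apply, PiLp.inner_apply, mul_comm]

theorem det_converges {J : Type} (X Y : (n : ℕ) → J → EuclideanSpace ℂ (Fin n))
    (N : (n : ℕ) → Matrix (Fin n) (Fin n) ℂ) {c : J → ℝ} (hc : Summable c)
    (hb : ∀ᶠ n in atTop, ∀ j, ‖X n j‖ * ‖Y n j‖ ≤ c j)
    (hN : ∀ᶠ n in atTop, HasSum (fun j => rk (X n j) (Y n j)) (N n))
    (hl : ∀ i j, ∃ l, Tendsto (fun n => inner ℂ (Y n i) (X n j)) atTop (𝓝 l)) :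
    ∃ L, Tendsto (fun n => (1 + N n).det) atTop (𝓝 L) := by
  classical
  have hc0 : ∀ j, 0 ≤ c j := fun j => by
    obtain ⟨n, hn⟩ := hb.exists
    exact le_trans (by positivity) (hn j)
  choose l hl using hl
  refine cauchySeq_tendsto_of_complete (Metric.cauchySeq_iff'.mpr fun ε hε => ?_)
  set K := 2 * Real.exp ((∑' j, c j + 1) + (∑' j, c j + 1) ^ 2 / 2) with hK
  have hK0 : 0 < K := by positivity
  set τ := min (1 / 2) (ε / (4 * K)) with hτ
  have hτ0 : 0 < τ := by positivity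
  obtain ⟨F, hF⟩ := ((tendsto_tsum_compl_atTop_zero c).eventually (gt_mem_nhds hτ0)).exists
  have hlim : Tendsto (fun n => (1 + ∑ j ∈ F, rk (X n j) (Y n j)).det) atTop
      (𝓝 (1 + of fun i j : F => l i j : Matrix F F ℂ).det) := by
    simp only [det_finite]
    refine (Continuous.matrix_det (continuous_const.add continuous_id)).continuousAt.tendsto.comp
      (f := fun n => (of fun i j : F => inner ℂ (Y n i) (X n j) : Matrix F F ℂ)) ?_
    exact tendsto_pi_nhds.mpr fun i => tendsto_pi_nhds.mpr fun j => hl i j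
  have hall : ∀ᶠ n in atTop, dist (1 + N n).det (1 + of fun i j : F => l i j : Matrix F F ℂ).det
      < ε / 2 := by
    filter_upwards [hb, hN, hlim.eventually (ball_mem_nhds _ (by positivity : 0 < ε / 4))]
      with n h1 h2 h3
    have a1 : nu (∑ j ∈ F, rk (X n j) (Y n j)) ≤ ∑' j, c j := by
      have h := nu_hasSum (hasSum_fintype fun j : F => rk (X n j) (Y n j))
        (hasSum_fintype fun j : F => c j) (fun j => (nu_rk _ _).trans (h1 j))
      rw [Finset.sum_coe_sort F c, Finset.sum_coe_sort F fun j => rk (X n j) (Y n j)] at h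
      exact h.trans (hc.sum_le_tsum F fun j _ => hc0 j)
    have a2 : nu (N n - ∑ j ∈ F, rk (X n j) (Y n j)) ≤ τ :=
      (nu_hasSum ((Finset.hasSum_iff_compl F).mp h2) (hc.subtype _).hasSum
        fun j => (nu_rk _ _).trans (h1 j)).trans hF.le
    have a3 := det_pert _ _ a1 a2 hτ0 (lt_of_le_of_lt (min_le_left _ _) (by norm_num))
    rw [add_sub_cancel, ← hK, ← dist_eq_norm] at a3
    have a4 : K * τ ≤ ε / 4 := by
      calc K * τ ≤ K * (ε / (4 * K)) := by gcongr; exact min_le_right _ _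
        _ = ε / 4 := by field_simp
    linarith [dist_triangle (1 + N n).det (1 + ∑ j ∈ F, rk (X n j) (Y n j)).det
      (1 + of fun i j : F => l i j : Matrix F F ℂ).det]
  obtain ⟨n0, hn0⟩ := eventually_atTop.mp hall
  refine ⟨n0, fun n hn => ?_⟩
  linarith [dist_triangle_right (1 + N n).det (1 + N n0).det
    (1 + of fun i j : F => l i j : Matrix F F ℂ).det, hn0 n hn, hn0 n0 le_rfl]

end Pool.Agent.Lib.MP_af63cc_an
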