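import Pool.Agent.Lib.MP_af63cc_an.Smooth

open Filter Topology Metric Set MeasureTheory AddCircle
open scoped ComplexConjugate InnerProductSpace Real ContDiff

namespace Pool.Agent.Lib.MP_af63cc_an

structure Good (a : ℕ → TT → ℂ) (a0 : TT → ℂ) (C : ℝ) : Prop where
  bd : ∀ n, Bd (a n)
  bd0 : Bd a0
  le : ∀ n x, ‖a n x‖ ≤ C
  lim : ∀ᵐ x ∂mu, Tendsto (fun n => a n x) atTop (𝓝 (a0 x))
  sect : ∃ (g : C(TT, ℂ)) (κ : ℝ), 0 < κ ∧ (Sm fun x => Complex.exp (-g x)) ∧
    ∀ n x, κ ≤ (Complex.exp (-g x) * a n x).re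

theorem Sm.conj {a : TT → ℂ} (h : Sm a) : Sm fun x => conj (a x) :=
  Complex.conjCLE.contDiff.comp h

variable {a b : ℕ → TT → ℂ} {a0 b0 : TT → ℂ} {C C' : ℝ}

theorem Good.conj (h : Good a a0 C) : Good (fun n x => conj (a n x)) (fun x => conj (a0 x)) C where
  bd n := (h.bd n).conj
  bd0 := h.bd0.conj
  le := by simpa using h.le
  lim := h.lim.mono fun _ hx => (Complex.continuous_conj.tendsto _).comp hx
  sect := by
    obtain ⟨g, κ, h1, h2, h3⟩ := h.sect
    have e1 : ∀ x, Complex.exp (-(star g) x) = (starRingEnd ℂ) (Complex.exp (-g x)) := fun x => by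
      simp [← Complex.exp_conj]
    refine ⟨star g, κ, h1, by simpa only [e1] using h2.conj, fun n x => ?_⟩
    rw [e1, ← map_mul, Complex.conj_re]
    exact h3 n x

theorem Good.fam (h : Good a a0 C) : Fam VV (fun n => MM (a n))
    (fun n => MM fun x => (starRingEnd ℂ) (a n x)) (MM a0) (MM fun x => (starRingEnd ℂ) (a0 x)) C :=
  fam_MM h.bd h.bd0 h.le h.lim

theorem Good.stab (h : Good a a0 C) : ∃ D, Stab ee (fun n => MM (a n)) D := by
  obtain ⟨g, κ, h1, h2, h3⟩ := h.sect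
  let E : C(TT, ℂ) := ⟨fun x => Complex.exp (-g x), cont_of h2.continuous⟩
  have h4 : ∀ᵐ x ∂mu, κ ≤ (Complex.exp (-g x) * a0 x).re ∧
      ‖Complex.exp (-g x) * a0 x‖ ≤ ‖E‖ * |C| + 1 := h.lim.mono fun x hx => by
    refine ⟨ge_of_tendsto' ((Complex.continuous_re.tendsto _).comp (hx.const_mul _))
      fun n => h3 n x, ?_⟩
    have := mul_le_mul (E.norm_coe_le_norm x)
      ((le_of_tendsto' hx.norm fun n => h.le n x).trans (le_abs_self C)) (norm_nonneg _)
      (norm_nonneg _)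
    rw [norm_mul]
    exact this.trans (by linarith)
  refine Pool.Agent.Lib.MP_af63cc_an.stab sh_VV h.fam
    (inj_MM (fun k => ?_) h.bd0 g h1 (by positivity) h4)
    (inj_MM (fun k => ?_) h.bd0 g h1 (by positivity) h4) (MM_comm h2.conj.bd) h2.conj.nuc h1
    fun n f => ?_
  · simp only [mem_Ici]
    rcases le_total 0 k with hk | hk
    exacts [Or.inl fun j hj => by omega, Or.inr fun j hj => by omega]
  · simp only [mem_Iio]
    rcases le_total 0 k with hk | hk
    exacts [Or.inr fun j hj => by omega, Or.inl fun j hj => by omega]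
  · rw [← MM_adj h2.bd, MM_mul h2.bd (h.bd n)]
    exact MM_coer (h2.bd.mul (h.bd n)) (Eventually.of_forall (h3 n)) f

theorem localization (ha : Good a a0 C) (hb : Good b b0 C') {φ A B : TT → ℂ} (hφ : Sm φ)
    (hA : Sm A) (hB : Sm B) {c d : ℕ → ℂ} {c0 d0 : ℂ} (hc : Tendsto c atTop (𝓝 c0))
    (hd : Tendsto d atTop (𝓝 d0)) (h1 : ∀ᶠ n in atTop, ∀ x, (1 - φ x) * a n x = c n * A x)
    (h2 : ∀ᶠ n in atTop, ∀ x, φ x * b n x = d n * B x) :
    (∀ᶠ n in atTop, (mat ee n (MM (a n))).det ≠ 0 ∧ (mat ee n (MM (b n))).det ≠ 0) ∧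
      ∃ L, Tendsto (fun n => (mat ee n (MM fun x => a n x * b n x)).det /
        ((mat ee n (MM (a n))).det * (mat ee n (MM (b n))).det)) atTop (𝓝 L) := by
  obtain ⟨D, sA⟩ := ha.stab
  obtain ⟨D', sB⟩ := hb.conj.stab
  have fB := hb.conj.fam
  simp only [Complex.conj_conj] at fB
  obtain ⟨cb, hcb⟩ := hc.norm.bddAbove_range
  obtain ⟨db, hdb⟩ := hd.norm.bddAbove_range
  have r1 : Rep fun n => (d n • MM (a n)) * Cm B * 1 :=
    Rep.of_nuc hB.nuc (R' := fun _ => 1) (C := db * C) (C' := 1) (fun n f => by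
      rw [smul_apply, norm_smul, mul_assoc]
      exact mul_le_mul (hdb ⟨n, rfl⟩) (ha.fam.bd n f) (norm_nonneg _)
        ((norm_nonneg _).trans (hdb ⟨n, rfl⟩))) (by simp) (by simp)
      (fun f => ⟨_, hd.smul (ha.fam.lim f)⟩) fun f => ⟨_, tendsto_const_nhds⟩
  have r2 : Rep fun n => (-c n • (1 : HH →L[ℂ] HH)) * Cm A * MM (b n) :=
    Rep.of_nuc hA.nuc (C := cb) (fun n f => by
      simpa [norm_smul] using mul_le_mul_of_nonneg_right (hcb ⟨n, rfl⟩) (norm_nonneg f))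
      fB.bd hb.fam.adj (fun f => ⟨_, hc.neg.smul_const f⟩) fun f => ⟨_, fB.lim f⟩
  have r3 : Rep fun n => (-MM (a n)) * Cm φ * MM (b n) :=
    Rep.of_nuc hφ.nuc (C := C) (fun n f => by simpa using ha.fam.bd n f)
      fB.bd hb.fam.adj (fun f => ⟨_, (ha.fam.lim f).neg⟩) fun f => ⟨_, fB.lim f⟩
  have key := ratio_rep sh_VV ha.fam fB hb.fam.comm sA sB ((r1.add r2).add r3)
    (Φ := fun n => MM (a n) * MM φ * MM (b n))
    (Ψ := fun n => MM (a n) * MM (b n) - MM (a n) * MM φ * MM (b n)) (by simp) (by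
      filter_upwards [h1, h2] with n e1 e2 f
      have e3 : ∀ u, c n • MM A u = MM (a n) u - MM (a n) (MM φ u) := fun u => by
        rw [← MM_smul hA.bd, MM_mul (ha.bd n) hφ.bd, ← MM_sub (ha.bd n) ((ha.bd n).mul hφ.bd)]
        simp only [← e1, mul_sub, mul_one, mul_comm]
      have e4 : ∀ u, d n • MM B u = MM φ (MM (b n) u) := fun u => by
        rw [← MM_smul hB.bd, MM_mul hφ.bd (hb.bd n)]
        simp only [← e2]
      simp only [Cm, add_apply, sub_apply, mul_apply_eq_comp, smul_apply,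
        one_apply_eq_self, neg_smul, neg_apply, ← map_smul, smul_sub, e3, e4]
      simp only [map_sub]
      abel)
  refine ⟨key.1, key.2.imp fun L hL => hL.congr fun n => ?_⟩
  congr 3
  ext1 f
  exact MM_mul (ha.bd n) (hb.bd n) f

end Pool.Agent.Lib.MP_af63cc_an
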