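import Pool.Agent.Lib.MP_af63cc_an.Rep

open Filter Topology Metric Set MeasureTheory AddCircle
open scoped ComplexConjugate InnerProductSpace Real ENNReal

namespace Pool.Agent.Lib.MP_af63cc_an

instance fact2pi : Fact (0 < 2 * π) := ⟨Real.two_pi_pos⟩

abbrev TT := AddCircle (2 * π)
noncomputable abbrev mu : Measure TT := haarAddCircle
noncomputable abbrev HH := Lp ℂ 2 mu
noncomputable def ee : HilbertBasis ℤ ℂ HH := fourierBasis
abbrev Bd (a : TT → ℂ) : Prop := MemLp a ∞ mu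

open Classical in
noncomputable def MM (a : TT → ℂ) : HH →L[ℂ] HH :=
  if h : Bd a then (ContinuousLinearMap.mul ℂ ℂ).holderL mu ∞ 2 2 (h.toLp a) else 0

theorem MM_coe {a : TT → ℂ} (h : Bd a) (f : HH) : MM a f =ᵐ[mu] fun x => a x * f x := by
  rw [MM, dif_pos h, ContinuousLinearMap.holderL_apply_apply]
  filter_upwards [(ContinuousLinearMap.mul ℂ ℂ).coeFn_holder (r := 2) (h.toLp a) f, h.coeFn_toLp]
    with x h1 h2
  rw [h1, h2]
  rfl

theorem Bd.mul {a b : TT → ℂ} (ha : Bd a) (hb : Bd b) : Bd fun x => a x * b x := MemLp.mul' hb ha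

theorem Bd.conj {a : TT → ℂ} (ha : Bd a) : Bd fun x => conj (a x) := MemLp.star ha

theorem Bd.of_cont {a : TT → ℂ} (ha : Continuous a) : Bd a :=
  memLp_top_of_bound ha.aestronglyMeasurable ‖(⟨a, ha⟩ : C(TT, ℂ))‖
    (Eventually.of_forall fun x => (⟨a, ha⟩ : C(TT, ℂ)).norm_coe_le_norm x)

theorem MM_mul {a b : TT → ℂ} (ha : Bd a) (hb : Bd b) (f : HH) :
    MM a (MM b f) = MM (fun x => a x * b x) f := by
  refine Lp.ext ?_
  filter_upwards [MM_coe ha (MM b f), MM_coe hb f, MM_coe (ha.mul hb) f] with x h1 h2 h3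
  rw [h1, h2, h3, mul_assoc]

theorem MM_add {a b : TT → ℂ} (ha : Bd a) (hb : Bd b) (f : HH) :
    MM (fun x => a x + b x) f = MM a f + MM b f := by
  refine Lp.ext ?_
  filter_upwards [MM_coe ha f, MM_coe hb f, MM_coe (a := fun x => a x + b x) (ha.add hb) f,
    Lp.coeFn_add (MM a f) (MM b f)] with x h1 h2 h3 h4
  rw [h4, h3, Pi.add_apply, h1, h2, add_mul]

theorem MM_smul {a : TT → ℂ} (ha : Bd a) (c : ℂ) (f : HH) :
    MM (fun x => c * a x) f = c • MM a f := by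
  refine Lp.ext ?_
  filter_upwards [MM_coe ha f, MM_coe (ha.const_mul c) f, Lp.coeFn_smul c (MM a f)]
    with x h1 h2 h3
  rw [h3, h2, Pi.smul_apply, h1, smul_eq_mul, mul_assoc]

theorem MM_one (f : HH) : MM (fun _ => 1) f = f := by
  refine Lp.ext ?_
  filter_upwards [MM_coe (memLp_top_const 1) f] with x h1
  rw [h1, one_mul]

theorem MM_sub {a b : TT → ℂ} (ha : Bd a) (hb : Bd b) (f : HH) :
    MM (fun x => a x - b x) f = MM a f - MM b f := by
  rw [eq_sub_iff_add_eq, ← MM_add (a := fun x => a x - b x) (ha.sub hb) hb]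
  simp

theorem MM_adj {a : TT → ℂ} (ha : Bd a) (u f : HH) :
    ⟪u, MM a f⟫_ℂ = ⟪MM (fun x => conj (a x)) u, f⟫_ℂ := by
  rw [L2.inner_def, L2.inner_def]
  refine integral_congr_ae ?_
  filter_upwards [MM_coe ha f, MM_coe ha.conj u] with x h1 h2
  simp only [h1, h2, RCLike.inner_apply, map_mul, Complex.conj_conj]
  ring

theorem MM_norm {a : TT → ℂ} (ha : Bd a) {C : ℝ} (h : ∀ᵐ x ∂mu, ‖a x‖ ≤ C) (f : HH) :
    ‖MM a f‖ ≤ C * ‖f‖ := by
  refine Lp.norm_le_mul_norm_of_ae_le_mul ?_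
  filter_upwards [MM_coe ha f, h] with x h1 h2
  rw [h1, norm_mul]
  exact mul_le_mul_of_nonneg_right h2 (norm_nonneg _)

theorem norm_sq_eq (f : HH) : ‖f‖ ^ 2 = ∫ x, ‖f x‖ ^ 2 ∂mu := by
  rw [← inner_self_eq_norm_sq (𝕜 := ℂ), L2.inner_def, ← integral_re (L2.integrable_inner f f)]
  simp only [inner_self_eq_norm_sq]

theorem int_sq (f : HH) : Integrable (fun x => ‖f x‖ ^ 2) mu :=
  (memLp_two_iff_integrable_sq_norm (Lp.memLp f).1).mp (Lp.memLp f)

theorem MM_coer {a : TT → ℂ} (ha : Bd a) {κ : ℝ} (h : ∀ᵐ x ∂mu, κ ≤ (a x).re) (f : HH) :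
    κ * ‖f‖ ^ 2 ≤ (⟪f, MM a f⟫_ℂ).re := by
  rw [norm_sq_eq, L2.inner_def, ← integral_const_mul, ← RCLike.re_to_complex,
    ← integral_re (L2.integrable_inner _ _)]
  refine integral_mono_ae ((int_sq f).const_mul κ) (L2.integrable_inner _ _).re ?_
  filter_upwards [MM_coe ha f, h] with x h1 h2
  rw [h1, RCLike.inner_apply, mul_assoc, Complex.mul_conj, ← Complex.sq_norm]
  simpa [← Complex.ofReal_pow] using mul_le_mul_of_nonneg_right h2 (sq_nonneg ‖f x‖)

theorem MM_tendsto {a : ℕ → TT → ℂ} {a0 : TT → ℂ} (ha : ∀ n, Bd (a n)) (ha0 : Bd a0) {C : ℝ}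
    (hC : ∀ n x, ‖a n x‖ ≤ C) (h : ∀ᵐ x ∂mu, Tendsto (fun n => a n x) atTop (𝓝 (a0 x)))
    (f : HH) : Tendsto (fun n => MM (a n) f) atTop (𝓝 (MM a0 f)) := by
  have h1 : Tendsto (fun n => ∫ x, ‖(a n x - a0 x) * f x‖ ^ 2 ∂mu) atTop (𝓝 (∫ _, 0 ∂mu)) := by
    refine tendsto_integral_of_dominated_convergence (fun x => (2 * C) ^ 2 * ‖f x‖ ^ 2)
      (fun n => ((((ha n).1.sub ha0.1).mul (Lp.memLp f).1).norm.pow 2)) ((int_sq f).const_mul _)
      (fun n => h.mono fun x hx => ?_) (h.mono fun x hx => ?_)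
    · have h2 : ‖a0 x‖ ≤ C := le_of_tendsto' hx.norm fun n => hC n x
      rw [norm_pow, norm_norm, norm_mul, mul_pow]
      gcongr
      linarith [norm_sub_le (a n x) (a0 x), hC n x]
    · simpa using (((hx.sub_const (a0 x)).mul_const (f x)).norm.pow 2)
  rw [tendsto_iff_norm_sub_tendsto_zero]
  have h2 := h1.sqrt
  rw [integral_zero, Real.sqrt_zero] at h2
  refine h2.congr fun n => ?_
  rw [← MM_sub (ha n) ha0, Real.sqrt_eq_iff_eq_sq (integral_nonneg fun _ => by positivity)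
    (norm_nonneg _), norm_sq_eq]
  refine integral_congr_ae ?_
  filter_upwards [MM_coe (a := fun x => a n x - a0 x) ((ha n).sub ha0) f] with x hx
  rw [hx]

theorem ee_coe (k : ℤ) : ee k =ᵐ[mu] fourier k := by
  rw [ee, coe_fourierBasis]
  exact coeFn_fourierLp 2 k

theorem inner_MM {a : TT → ℂ} (ha : Bd a) (j k : ℤ) :
    ⟪ee j, MM a (ee k)⟫_ℂ = fourierCoeff a (j - k) := by
  rw [L2.inner_def, fourierCoeff]
  refine integral_congr_ae ?_
  filter_upwards [MM_coe ha (ee k), ee_coe j, ee_coe k] with x h1 h2 h3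
  rw [h1, h2, h3, RCLike.inner_apply, ← fourier_neg, neg_sub, sub_eq_add_neg, fourier_add,
    smul_eq_mul]
  ring

noncomputable def VV (m : ℤ) : HH →L[ℂ] HH := MM (fourier m)

theorem bd_fourier (m : ℤ) : Bd (fourier m) := Bd.of_cont (fourier m).continuous

theorem MM_comm {a : TT → ℂ} (ha : Bd a) (m : ℤ) (f : HH) : MM a (VV m f) = VV m (MM a f) := by
  rw [VV, MM_mul ha (bd_fourier m), MM_mul (bd_fourier m) ha]
  simp only [mul_comm]

theorem VV_adj (m : ℤ) (u f : HH) : ⟪VV m u, f⟫_ℂ = ⟪u, VV (-m) f⟫_ℂ := by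
  rw [VV, VV, MM_adj (bd_fourier _)]
  simp only [fourier_neg, Complex.conj_conj]

theorem sh_VV : Sh ee VV where
  coef m k f := by
    rw [← neg_neg m, ← VV_adj, neg_neg]
    congr 1
    refine Lp.ext ?_
    filter_upwards [MM_coe (bd_fourier (-m)) (ee k), ee_coe k, ee_coe (k - m)] with x h1 h2 h3
    rw [VV, h1, h2, h3, sub_eq_neg_add, fourier_add]
  adj := VV_adj
  norm m f := by
    rw [← sq_eq_sq₀ (norm_nonneg _) (norm_nonneg _), norm_sq_eq, norm_sq_eq]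
    refine integral_congr_ae ?_
    filter_upwards [MM_coe (bd_fourier m) f] with x h1
    rw [VV, h1, norm_mul, fourier_apply, Circle.norm_coe, one_mul]

theorem fam_MM {a : ℕ → TT → ℂ} {a0 : TT → ℂ} (ha : ∀ n, Bd (a n)) (ha0 : Bd a0) {C : ℝ}
    (hC : ∀ n x, ‖a n x‖ ≤ C) (h : ∀ᵐ x ∂mu, Tendsto (fun n => a n x) atTop (𝓝 (a0 x))) :
    Fam VV (fun n => MM (a n)) (fun n => MM fun x => conj (a n x)) (MM a0)
      (MM fun x => conj (a0 x)) C where
  adj n := MM_adj (ha n)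
  adj0 := MM_adj ha0
  lim := MM_tendsto ha ha0 hC h
  lim' := MM_tendsto (fun n => (ha n).conj) ha0.conj (C := C) (by simpa using hC)
    (h.mono fun _ hx => (Complex.continuous_conj.tendsto _).comp hx)
  bd n := MM_norm (ha n) (Eventually.of_forall (hC n))
  comm n := MM_comm (ha n)

end Pool.Agent.Lib.MP_af63cc_an
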