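import Pool.Agent.Lib.MP_af63cc_an.Sec

open Filter Topology Metric Set
open scoped ComplexConjugate InnerProductSpace

namespace Pool.Agent.Lib.MP_af63cc_an

variable {H : Type} [NormedAddCommGroup H] [InnerProductSpace ℂ H] [CompleteSpace H]
  {e : HilbertBasis ℤ ℂ H}

def Rep (G : ℕ → H →L[ℂ] H) : Prop :=
  ∃ (J : Type) (x y : ℕ → J → H) (c : J → ℝ), Summable c ∧ (∀ n j, ‖x n j‖ * ‖y n j‖ ≤ c j) ∧
    (∀ j, ∃ l, Tendsto (fun n => x n j) atTop (𝓝 l)) ∧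
    (∀ j, ∃ l, Tendsto (fun n => y n j) atTop (𝓝 l)) ∧
    ∀ n u w, HasSum (fun j => ⟪u, x n j⟫_ℂ * ⟪y n j, w⟫_ℂ) ⟪u, G n w⟫_ℂ

omit [CompleteSpace H] in
theorem Rep.add {G G' : ℕ → H →L[ℂ] H} (h : Rep G) (h' : Rep G') : Rep fun n => G n + G' n := by
  obtain ⟨J, x, y, c, a1, a2, a3, a4, a5⟩ := h
  obtain ⟨J', x', y', c', b1, b2, b3, b4, b5⟩ := h'
  refine ⟨J ⊕ J', fun n => Sum.elim (x n) (x' n), fun n => Sum.elim (y n) (y' n), Sum.elim c c',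
    (HasSum.sum (f := Sum.elim c c') a1.hasSum b1.hasSum).summable, ?_, ?_, ?_, fun n u w => ?_⟩
  · rintro n (j | j)
    exacts [a2 n j, b2 n j]
  · rintro (j | j)
    exacts [a3 j, b3 j]
  · rintro (j | j)
    exacts [a4 j, b4 j]
  · rw [add_apply, inner_add_right]
    exact HasSum.sum (a5 n u w) (b5 n u w)

theorem Rep.of_nuc {N : H →L[ℂ] H} (hN : Nuc e N) {L R R' : ℕ → H →L[ℂ] H} {C C' : ℝ}
    (hL : ∀ n f, ‖L n f‖ ≤ C * ‖f‖) (hR : ∀ n f, ‖R' n f‖ ≤ C' * ‖f‖)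
    (ha : ∀ n u f, ⟪u, R n f⟫_ℂ = ⟪R' n u, f⟫_ℂ)
    (l1 : ∀ f, ∃ l, Tendsto (fun n => L n f) atTop (𝓝 l))
    (l2 : ∀ f, ∃ l, Tendsto (fun n => R' n f) atTop (𝓝 l)) : Rep fun n => L n * N * R n := by
  refine ⟨ℤ × ℤ, fun n p => ⟪e p.1, N (e p.2)⟫_ℂ • L n (e p.1), fun n p => R' n (e p.2), _,
    hN.mul_right (C * C'), fun n p => ?_, fun p => ?_, fun p => l2 _, fun n u w => ?_⟩
  · have h1 := hL n (e p.1)
    have h2 := hR n (e p.2)
    rw [e.orthonormal.1, mul_one] at h1 h2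
    rw [norm_smul, mul_assoc]
    exact mul_le_mul_of_nonneg_left (mul_le_mul h1 h2 (norm_nonneg _) ((norm_nonneg _).trans h1))
      (norm_nonneg _)
  · obtain ⟨l, hl⟩ := l1 (e p.1)
    exact ⟨_, hl.const_smul _⟩
  · refine ((innerSL ℂ u).hasSum ((L n).hasSum (hN.hasSum e (R n w)))).congr_fun fun p => ?_
    simp only [map_smul, innerSL_apply_apply, inner_smul_right, ha, smul_eq_mul]
    ring

variable {V : ℤ → H →L[ℂ] H} {A A' B B' : ℕ → H →L[ℂ] H} {A0 A0' B0 B0' : H →L[ℂ] H}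
  {C C' D D' : ℝ}

theorem ratio_rep (hV : Sh e V) (hA : Fam V A A' A0 A0' C) (hB : Fam V B' B B0' B0 C')
    (hB' : ∀ i m f, B i (V m f) = V m (B i f))
    (sA : Stab e A D) (sB : Stab e B' D') {G Φ Ψ : ℕ → H →L[ℂ] H} (hG : Rep G)
    (h1 : ∀ n f, Φ n f + Ψ n f = A n (B n f))
    (h2 : ∀ᶠ n in atTop, ∀ f, G n f =
      A n (Pr e (Iio 0) (B n f)) - Φ n (Pr e (Iio 0) f) - Pr e (Iio 0) (Ψ n f)) :
    (∀ᶠ n in atTop, (mat e n (A n)).det ≠ 0 ∧ (mat e n (B n)).det ≠ 0) ∧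
      ∃ L, Tendsto (fun n => (mat e n (A n * B n)).det /
        ((mat e n (A n)).det * (mat e n (B n)).det)) atTop (𝓝 L) := by
  obtain ⟨J, x, y, c, a1, a2, a3, a4, a5⟩ := hG
  refine ratio_converges hV hA hB hB' sA sB a1 (Eventually.of_forall a2) a3 a4
    (h2.mono fun n hn i k hi hk => ?_) (h2.mono fun n hn i k hi hk => ?_)
  · have := a5 n (e i) (e k)
    rwa [hn, Pr_eq_zero e (S' := Iio 0) (In_e e (S := Ici 0) hk) (fun j hj => by simpa using hj),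
      map_zero, sub_zero, inner_sub_right, coef_Pr_not e (S := Iio 0) (not_lt.mpr hi),
      sub_zero] at this
  · have := a5 n (e i) (e k)
    rw [hn, Pr_of_In e (In_e e (S := Iio 0) hk), inner_sub_right, coef_Pr_mem e (S := Iio 0) hi,
      ← inner_sub_right, sub_sub, h1] at this
    convert this using 1
    rw [← inner_neg_right, ← map_sub, ← map_neg]
    congr 2
    rw [eq_sub_iff_add_eq, neg_add_eq_sub, sub_eq_iff_eq_add]
    exact Pr_split2 _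

end Pool.Agent.Lib.MP_af63cc_an
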