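import Pool.Agent.Lib.MP_af63cc_an.Stab
import Pool.Agent.Lib.MP_af63cc_an.Det

open Filter Topology Metric Set Matrix
open scoped ComplexConjugate InnerProductSpace

namespace Pool.Agent.Lib.MP_af63cc_an

variable {H : Type} [NormedAddCommGroup H] [InnerProductSpace ℂ H] [CompleteSpace H]
  (e : HilbertBasis ℤ ℂ H)

noncomputable def mat (n : ℕ) (T : H →L[ℂ] H) : Matrix (Fin n) (Fin n) ℂ :=
  of fun p q => ⟪e ((p : ℕ) : ℤ), T (e ((q : ℕ) : ℤ))⟫_ℂ

noncomputable def io {n : ℕ} (x : EuclideanSpace ℂ (Fin n)) : H := ∑ p, x p • e ((p : ℕ) : ℤ)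

noncomputable def rr (n : ℕ) (f : H) : Fin n → ℂ := fun p => ⟪e ((p : ℕ) : ℤ), f⟫_ℂ

omit [CompleteSpace H] in
theorem on_fin (n : ℕ) : Orthonormal ℂ fun p : Fin n => e ((p : ℕ) : ℤ) :=
  e.orthonormal.comp _ fun _ _ h => Fin.ext (by exact_mod_cast h)

omit [CompleteSpace H] in
theorem inner_io {n : ℕ} (x y : EuclideanSpace ℂ (Fin n)) : ⟪io e x, io e y⟫_ℂ = ⟪x, y⟫_ℂ := by
  rw [io, io, (on_fin e n).inner_sum]
  simp [PiLp.inner_apply, mul_comm]

omit [CompleteSpace H] in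
theorem norm_io {n : ℕ} (x : EuclideanSpace ℂ (Fin n)) : ‖io e x‖ = ‖x‖ := by
  rw [norm_eq_sqrt_re_inner (𝕜 := ℂ), inner_io, ← norm_eq_sqrt_re_inner]

omit [CompleteSpace H] in
theorem coef_io {n : ℕ} (x : EuclideanSpace ℂ (Fin n)) (p : Fin n) :
    ⟪e ((p : ℕ) : ℤ), io e x⟫_ℂ = x p :=
  (on_fin e n).inner_right_fintype _ p

theorem mem_Wl {n : ℕ} (p : Fin n) : ((p : ℕ) : ℤ) ∈ Wl n := ⟨by omega, by omega⟩

omit [CompleteSpace H] in
theorem In_io {n : ℕ} (x : EuclideanSpace ℂ (Fin n)) : In e (Wl n) (io e x) := fun k hk => by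
  rw [io, inner_sum]
  exact Finset.sum_eq_zero fun p _ => by rw [inner_smul_right, In_e e (mem_Wl p) k hk, mul_zero]

theorem io_eq {n : ℕ} {x : EuclideanSpace ℂ (Fin n)} {f : H} (h : x.ofLp = rr e n f) :
    io e x = Pr e (Wl n) f := ext_coef e fun k => by
  by_cases hk : k ∈ Wl n
  · obtain ⟨p, rfl⟩ : ∃ p : Fin n, ((p : ℕ) : ℤ) = k :=
      ⟨⟨k.toNat, by have := hk.1; have := hk.2; omega⟩, Int.toNat_of_nonneg hk.1⟩
    rw [coef_io, coef_Pr_mem e hk, h, rr]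
  · rw [In_io e x k hk, coef_Pr_not e hk]

omit [CompleteSpace H] in
theorem mat_mulVec {n : ℕ} (T : H →L[ℂ] H) (x : EuclideanSpace ℂ (Fin n)) :
    mat e n T *ᵥ x.ofLp = rr e n (T (io e x)) := by
  ext p
  simp [mat, rr, io, mulVec, dotProduct, mul_comm]

theorem det_ne {n : ℕ} {T : H →L[ℂ] H} {D : ℝ}
    (h : ∀ f, In e (Wl n) f → ‖f‖ ≤ D * ‖Pr e (Wl n) (T f)‖) : (mat e n T).det ≠ 0 := by
  intro h0
  obtain ⟨v, hv, h1⟩ := exists_mulVec_eq_zero_iff.mpr h0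
  have h2 := h _ (In_io e (WithLp.toLp 2 v))
  rw [← io_eq e (x := 0) (by rw [← mat_mulVec, h1]; rfl), norm_io, norm_io, norm_zero,
    mul_zero, norm_le_zero_iff] at h2
  exact hv (congrArg WithLp.ofLp h2)

noncomputable def sol (n : ℕ) (T : H →L[ℂ] H) (v : H) : EuclideanSpace ℂ (Fin n) :=
  WithLp.toLp 2 ((mat e n T)⁻¹ *ᵥ rr e n v)

theorem sol_spec {n : ℕ} {T : H →L[ℂ] H} (h : (mat e n T).det ≠ 0) (v : H) :
    Pr e (Wl n) (T (io e (sol e n T v))) = Pr e (Wl n) v := by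
  rw [← io_eq e (x := WithLp.toLp 2 (rr e n v)) rfl]
  refine (io_eq e ?_).symm
  rw [← mat_mulVec, sol, mulVec_mulVec, mul_nonsing_inv _ (Ne.isUnit h), one_mulVec]

theorem norm_sol {n : ℕ} {T : H →L[ℂ] H} {D : ℝ}
    (h : ∀ f, In e (Wl n) f → ‖f‖ ≤ D * ‖Pr e (Wl n) (T f)‖) (v : H) :
    ‖sol e n T v‖ ≤ |D| * ‖v‖ := by
  have := h _ (In_io e (sol e n T v))
  rw [norm_io, sol_spec e (det_ne e h)] at this
  exact this.trans (mul_le_mul (le_abs_self D) (norm_Pr_le e _ _) (norm_nonneg _) (abs_nonneg D))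

omit [CompleteSpace H] in
theorem mat_adj {n : ℕ} {T T' : H →L[ℂ] H} (h : ∀ u f, ⟪u, T' f⟫_ℂ = ⟪T u, f⟫_ℂ) :
    mat e n T = (mat e n T')ᴴ := by
  ext p q
  simp [mat, h]

theorem mat_mul (n : ℕ) (A B : H →L[ℂ] H) (p q : Fin n) :
    (mat e n A * mat e n B) p q =
      ⟪e ((p : ℕ) : ℤ), A (Pr e (Wl n) (B (e ((q : ℕ) : ℤ))))⟫_ℂ := by
  rw [← io_eq e (x := WithLp.toLp 2 (rr e n (B (e ((q : ℕ) : ℤ))))) rfl]
  exact congrFun (mat_mulVec e A (WithLp.toLp 2 (rr e n (B (e ((q : ℕ) : ℤ)))))) p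

variable {e} {V : ℤ → H →L[ℂ] H} {A A' B B' : ℕ → H →L[ℂ] H} {A0 A0' B0 B0' : H →L[ℂ] H}
  {C C' D D' : ℝ}

theorem conv_left (hA : Fam V A A' A0 A0' C) (hs : Stab e A D) {v : ℕ → H} {v0 : H}
    (hv : Tendsto v atTop (𝓝 v0)) :
    ∃ g, Tendsto (fun n => io e (sol e n (A n) (v n))) atTop (𝓝 g) :=
  conv_sol e Wl_lim hA.adj hA.adj0 hA.lim hA.lim' hA.bd hs hv
    (hs.mono fun _ hn => ⟨In_io e _, sol_spec e (det_ne e hn) _⟩)

theorem conv_right (hV : Sh e V) (hA : Fam V A A' A0 A0' C) (hs : Stab e A D) {v : ℕ → H} {v0 : H}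
    (hv : Tendsto v atTop (𝓝 v0)) :
    ∃ g, Tendsto (fun n : ℕ => V (-n) (io e (sol e n (A n) (V n (v n))))) atTop (𝓝 g) := by
  refine conv_sol e Wr_lim hA.adj hA.adj0 hA.lim hA.lim' hA.bd (D := D)
    (hs.mono fun n hn f hf => ?_) hv
    (hs.mono fun n hn => ⟨hV.In (fun k => (Wrl n k).mpr) (In_io e _), ?_⟩)
  · have := hn _ (hV.In (fun k => (Wlr n k).mpr) hf)
    rwa [hA.comm, hV.Pr (Wlr n), hV.norm, hV.norm] at this
  · rw [hA.comm, hV.Pr (Wrl n), sol_spec e (det_ne e hn), hV.Pr (Wlr n)]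
    simpa using hV.cancel (-n) (Pr e (Wr n) (v n))

theorem mul_rk {m : Type} [Fintype m] (P Q : Matrix m m ℂ) (x y : m → ℂ) :
    P * (of fun p q => x p * conj (y q)) * Q =
      rk (WithLp.toLp 2 (P *ᵥ x)) (WithLp.toLp 2 (Qᴴ *ᵥ y)) := by
  ext p q
  simp [rk, mul_apply, mulVec, dotProduct, Finset.sum_mul, Finset.mul_sum, mul_comm, mul_left_comm,
    mul_assoc]

theorem ratio_converges (hV : Sh e V) (hA : Fam V A A' A0 A0' C) (hB : Fam V B' B B0' B0 C')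
    (hB' : ∀ i m f, B i (V m f) = V m (B i f))
    (sA : Stab e A D) (sB : Stab e B' D') {J : Type} {x y : ℕ → J → H} {c : J → ℝ}
    (hc : Summable c) (hxy : ∀ᶠ n in atTop, ∀ j, ‖x n j‖ * ‖y n j‖ ≤ c j)
    (hx : ∀ j, ∃ l, Tendsto (fun n => x n j) atTop (𝓝 l))
    (hy : ∀ j, ∃ l, Tendsto (fun n => y n j) atTop (𝓝 l))
    (h1 : ∀ᶠ n in atTop, ∀ i k : ℤ, 0 ≤ i → 0 ≤ k →
      HasSum (fun j => ⟪e i, x n j⟫_ℂ * ⟪y n j, e k⟫_ℂ) ⟪e i, A n (Pr e (Iio 0) (B n (e k)))⟫_ℂ)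
    (h2 : ∀ᶠ n in atTop, ∀ i k : ℤ, i < 0 → k < 0 →
      HasSum (fun j => ⟪e i, x n j⟫_ℂ * ⟪y n j, e k⟫_ℂ)
        (-⟪e i, A n (Pr e (Ici 0) (B n (e k)))⟫_ℂ)) :
    (∀ᶠ n in atTop, (mat e n (A n)).det ≠ 0 ∧ (mat e n (B n)).det ≠ 0) ∧
      ∃ L, Tendsto (fun n => (mat e n (A n * B n)).det /
        ((mat e n (A n)).det * (mat e n (B n)).det)) atTop (𝓝 L) := by
  have hd : ∀ᶠ n in atTop, (mat e n (A n)).det ≠ 0 ∧ (mat e n (B n)).det ≠ 0 := by
    filter_upwards [sA, sB] with n a1 a2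
    refine ⟨det_ne e a1, ?_⟩
    rw [mat_adj e (hB.adj n), det_conjTranspose]
    exact star_ne_zero.mpr (det_ne e a2)
  refine ⟨hd, ?_⟩
  let xx : ℕ → J ⊕ J → H := fun n => Sum.elim (x n) fun j => V n (-x n j)
  let yy : ℕ → J ⊕ J → H := fun n => Sum.elim (y n) fun j => V n (y n j)
  let K : (n : ℕ) → Matrix (Fin n) (Fin n) ℂ := fun n =>
    mat e n (A n * B n) - mat e n (A n) * mat e n (B n)
  obtain ⟨L, hL⟩ := det_converges (fun n j => sol e n (A n) (xx n j))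
    (fun n j => sol e n (B' n) (yy n j)) (fun n => (mat e n (A n))⁻¹ * K n * (mat e n (B n))⁻¹)
    (c := fun j => |D| * |D'| * Sum.elim c c j)
    ((HasSum.sum (f := Sum.elim c c) hc.hasSum hc.hasSum).summable.mul_left _)
    (by
      filter_upwards [sA, sB, hxy] with n a1 a2 a3 j
      refine (mul_le_mul (norm_sol e a1 _) (norm_sol e a2 _) (norm_nonneg _)
        (by positivity)).trans ?_
      rw [mul_mul_mul_comm]
      refine mul_le_mul_of_nonneg_left ?_ (by positivity)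
      rcases j with j | j
      · exact a3 j
      · simpa [xx, yy, hV.norm] using a3 j)
    (by
      filter_upwards [h1, h2] with n a1 a2
      have hK : HasSum (fun j => (of fun p q => rr e n (xx n j) p * conj (rr e n (yy n j) q) :
          Matrix (Fin n) (Fin n) ℂ)) (K n) := by
        refine Pi.hasSum.mpr fun p => Pi.hasSum.mpr fun q => ?_
        have b1 := a1 p q (by omega) (by omega)
        have b2 := (a2 (p - n) (q - n) (by omega) (by omega)).neg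
        have b3 : e ((q : ℕ) : ℤ) = V n (e (q - n)) := ext_coef e fun k => by
          rw [hV.coef, inner_e, inner_e]
          simp only [sub_left_inj]
        have b4 : K n p q = ⟪e ((p : ℕ) : ℤ), A n (Pr e (Iio 0) (B n (e ((q : ℕ) : ℤ))))⟫_ℂ +
            - -⟪e (p - n), A n (Pr e (Ici 0) (B n (e (q - n))))⟫_ℂ := by
          rw [neg_neg, ← hV.coef, ← hA.comm,
            ← hV.Pr (S := Ici (n : ℤ)) (fun k => by simp), ← hB', ← b3]
          simp only [K, Matrix.sub_apply, mat_mul]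
          rw [mat, of_apply, mul_apply_eq_comp, sub_eq_iff_eq_add', ← inner_add_right,
            ← inner_add_right, ← map_add, ← map_add, ← add_assoc, ← Pr_split]
        rw [b4]
        refine HasSum.sum (b1.congr_fun fun j => ?_) (b2.congr_fun fun j => ?_)
        · simp [xx, yy, rr]
        · simp only [Function.comp, of_apply, xx, yy, rr, Sum.elim_inr, hV.coef, inner_conj_symm,
            inner_neg_right, neg_mul]
      refine ((hK.mul_left (mat e n (A n))⁻¹).mul_right (mat e n (B n))⁻¹).congr_fun fun j => ?_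
      rw [mul_rk, sol, sol, conjTranspose_nonsing_inv, mat_adj e (hB.adj n),
        conjTranspose_conjTranspose])
    (by
      simp only [← inner_io e]
      rintro (i | i) (j | j) <;> obtain ⟨u, hu⟩ := hy i <;> obtain ⟨v, hv⟩ := hx j
      · obtain ⟨g, hg⟩ := conv_left hB sB hu
        obtain ⟨g', hg'⟩ := conv_left hA sA hv
        exact ⟨_, hg.inner hg'⟩
      · obtain ⟨g, hg⟩ := conv_left hB sB hu
        obtain ⟨g', hg'⟩ := conv_right hV hA sA hv.neg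
        refine ⟨0, (hV.cross hg hg').congr fun n => ?_⟩
        rw [hV.cancel]
        rfl
      · obtain ⟨g, hg⟩ := conv_right hV hB sB hu
        obtain ⟨g', hg'⟩ := conv_left hA sA hv
        refine ⟨_, ((Complex.continuous_conj.tendsto _).comp (hV.cross hg' hg)).congr fun n => ?_⟩
        simp [hV.cancel, xx, yy]
      · obtain ⟨g, hg⟩ := conv_right hV hB sB hu
        obtain ⟨g', hg'⟩ := conv_right hV hA sA hv.neg
        refine ⟨_, (hg.inner (𝕜 := ℂ) hg').congr fun n => ?_⟩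
        rw [← hV.adj, hV.cancel]
        rfl)
  refine ⟨L, hL.congr' (hd.mono fun n hn => ?_)⟩
  have e1 : mat e n (A n * B n) = mat e n (A n) *
      (1 + (mat e n (A n))⁻¹ * K n * (mat e n (B n))⁻¹) * mat e n (B n) := by
    rw [mul_add, add_mul, mul_one, ← mul_assoc, ← mul_assoc, mul_nonsing_inv _ (Ne.isUnit hn.1),
      one_mul, nonsing_inv_mul_cancel_right _ _ (Ne.isUnit hn.2)]
    simp [K]
  simp only
  rw [e1, det_mul, det_mul]
  field_simp [hn.1, hn.2]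

end Pool.Agent.Lib.MP_af63cc_an
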