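import Pool.Agent.Lib.MP_af63cc_an.Ops

open Filter Topology Metric Set MeasureTheory AddCircle
open scoped ComplexConjugate InnerProductSpace Real ContDiff

namespace Pool.Agent.Lib.MP_af63cc_an

def Sm (a : TT → ℂ) : Prop := ContDiff ℝ ∞ fun x : ℝ => a x

theorem cont_of {a : TT → ℂ} (h : Continuous fun x : ℝ => a x) : Continuous a :=
  (QuotientAddGroup.isQuotientMap_mk _).continuous_iff.mpr h

theorem Sm.bd {a : TT → ℂ} (h : Sm a) : Bd a := Bd.of_cont (cont_of h.continuous)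

theorem coeff_eq (a : TT → ℂ) (k : ℤ) : fourierCoeff a k =
    fourierCoeffOn (lt_add_of_pos_right 0 Real.two_pi_pos) (fun x : ℝ => a x) k := by
  rw [← fourierCoeff_liftIoc_eq]
  congr 1
  ext y
  exact congrArg a ((equivIoc (2 * π) 0).symm_apply_apply y).symm

theorem decay (m : ℕ) :
    ∀ a : TT → ℂ, Sm a → ∃ C, ∀ k : ℤ, ‖fourierCoeff a k‖ * |(k : ℝ)| ^ m ≤ C := by
  induction m with
  | zero =>
    intro a ha
    refine ⟨‖MM a (ee 0)‖, fun k => ?_⟩
    have := norm_inner_le_norm (𝕜 := ℂ) (ee k) (MM a (ee 0))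
    rw [inner_MM ha.bd, ee.orthonormal.1] at this
    simpa using this
  | succ m ih =>
    intro a ha
    have hp : Function.Periodic (deriv fun x : ℝ => a x) (2 * π) := fun x => by
      rw [← deriv_comp_add_const]
      simp only [coe_add_period]
    have h' : Sm hp.lift := (contDiff_infty_iff_deriv.mp ha).2
    obtain ⟨C, hC⟩ := ih _ h'
    refine ⟨C, fun k => ?_⟩
    rcases eq_or_ne k 0 with rfl | hk
    · exact le_trans (by simp; positivity) (hC 0)
    refine le_trans (le_of_eq ?_) (hC k)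
    rw [coeff_eq a, coeff_eq, fourierCoeffOn_of_hasDerivAt _ hk
      (fun x _ => ((contDiff_infty_iff_deriv.mp ha).1 x).hasDerivAt)
      (h'.continuous.intervalIntegrable _ _), coe_add_period]
    have : (k : ℝ) ≠ 0 := by exact_mod_cast hk
    simp only [sub_self, mul_zero, zero_sub, norm_mul, norm_neg, norm_div]
    simp [abs_of_pos Real.pi_pos]
    field_simp
    ring

theorem summable_w : Summable fun k : ℤ => 1 / ((k : ℝ) ^ 2 + 1) := by
  refine Summable.of_norm_bounded_eventually (Real.summable_one_div_int_pow.mpr one_lt_two) ?_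
  filter_upwards [eventually_cofinite_ne 0] with k hk
  have : (k : ℝ) ≠ 0 := by exact_mod_cast hk
  rw [Real.norm_of_nonneg (by positivity)]
  exact one_div_le_one_div_of_le (by positivity) (by linarith)

theorem w_bound {x C k l d : ℝ} (hx : 0 ≤ x) (h : x * |d| ^ 4 ≤ C) (h1 : 1 ≤ d ^ 2)
    (h2 : k ^ 2 ≤ d ^ 2) (h3 : l ^ 2 ≤ d ^ 2) :
    x ≤ 4 * C * (1 / (k ^ 2 + 1) * (1 / (l ^ 2 + 1))) := by
  rw [one_div_mul_one_div, mul_one_div, le_div_iff₀ (by positivity)]
  have h4 : (k ^ 2 + 1) * (l ^ 2 + 1) ≤ (2 * d ^ 2) * (2 * d ^ 2) := by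
    gcongr <;> linarith
  have h5 : |d| ^ 4 = d ^ 2 * d ^ 2 := by rw [show 4 = 2 * 2 from rfl, pow_mul, sq_abs, sq]
  calc _ ≤ x * ((2 * d ^ 2) * (2 * d ^ 2)) := mul_le_mul_of_nonneg_left h4 hx
    _ = 4 * (x * |d| ^ 4) := by rw [h5]; ring
    _ ≤ _ := by linarith

noncomputable def Cm (a : TT → ℂ) : HH →L[ℂ] HH := Pr ee (Iio 0) * MM a - MM a * Pr ee (Iio 0)

theorem Sm.nuc {a : TT → ℂ} (ha : Sm a) : Nuc ee (Cm a) := by
  obtain ⟨C, hC⟩ := decay 4 a ha
  have hC0 : 0 ≤ C := le_trans (by positivity) (hC 0)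
  refine Summable.of_nonneg_of_le (fun _ => norm_nonneg _) (fun p => ?_)
    ((summable_w.mul_of_nonneg summable_w (fun _ => by positivity) fun _ => by positivity).mul_left
      (4 * C))
  obtain ⟨k, l⟩ := p
  simp only [Cm, sub_apply, mul_apply_eq_comp, inner_sub_right]
  have key : (k < 0 ∧ 0 ≤ l) ∨ (l < 0 ∧ 0 ≤ k) → ‖⟪ee k, MM a (ee l)⟫_ℂ‖ ≤
      4 * C * (1 / ((k : ℝ) ^ 2 + 1) * (1 / ((l : ℝ) ^ 2 + 1))) := fun h => by
    rw [inner_MM ha.bd]
    refine w_bound (norm_nonneg _) (hC _) ?_ ?_ ?_ <;> norm_cast <;>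
      rcases h with h | h <;> nlinarith [h.1, h.2]
  rcases lt_or_ge l 0 with hl | hl
  · rw [Pr_of_In ee (In_e ee (S := Iio 0) hl), coef_Pr]
    split_ifs with hk
    · rw [sub_self, norm_zero]
      positivity
    · rw [zero_sub, norm_neg]
      exact key (Or.inr ⟨hl, not_lt.mp hk⟩)
  · rw [Pr_eq_zero ee (S' := Iio 0) (In_e ee (S := Ici 0) hl) (fun j hj => by simpa using hj),
      map_zero, inner_zero_right, sub_zero, coef_Pr]
    split_ifs with hk
    · exact key (Or.inl ⟨hk, hl⟩)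
    · rw [norm_zero]
      positivity

def Pres (S : Set ℤ) : Subalgebra ℂ C(TT, ℂ) where
  carrier := {p | ∀ f, In ee S f → In ee S (MM p f)}
  mul_mem' {p q} hp hq f hf := by
    have := hp _ (hq f hf)
    rwa [MM_mul (Bd.of_cont p.continuous) (Bd.of_cont q.continuous)] at this
  add_mem' {p q} hp hq f hf k hk := by
    have := MM_add (Bd.of_cont p.continuous) (Bd.of_cont q.continuous) f
    rw [show MM (⇑(p + q)) f = _ from this, inner_add_right, hp f hf k hk, hq f hf k hk, add_zero]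
  algebraMap_mem' c f hf k hk := by
    have := MM_smul (memLp_top_const 1) c f
    rw [MM_one] at this
    have h2 : (⇑(algebraMap ℂ C(TT, ℂ) c) : TT → ℂ) = fun _ => c * 1 := by
      ext; simp
    rw [h2, this, inner_smul_right, hf k hk, mul_zero]

theorem closed_Pres (S : Set ℤ) : IsClosed (Pres S : Set C(TT, ℂ)) := by
  have : (Pres S : Set C(TT, ℂ)) =
      ⋂ f, ⋂ (_ : In ee S f), ⋂ k, ⋂ (_ : k ∉ S), {p : C(TT, ℂ) | ⟪ee k, MM p f⟫_ℂ = 0} := by
    ext p
    simp only [mem_iInter]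
    rfl
  rw [this]
  refine isClosed_iInter fun f => isClosed_iInter fun _ => isClosed_iInter fun k =>
    isClosed_iInter fun _ => isClosed_eq (continuous_const.inner ?_) continuous_const
  refine (LipschitzWith.of_dist_le_mul (K := ‖f‖₊) fun p q => ?_).continuous
  rw [dist_eq_norm, ← MM_sub (Bd.of_cont p.continuous) (Bd.of_cont q.continuous),
    mul_comm _ (dist p q), dist_eq_norm]
  exact MM_norm (Bd.of_cont (p.continuous.sub q.continuous))
    (Eventually.of_forall fun x => (p - q).norm_coe_le_norm x) f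

theorem exp_Pres {S : Set ℤ} {p : C(TT, ℂ)} (hp : p ∈ Pres S) {f : HH} (hf : In ee S f) :
    In ee S (MM (fun x => Complex.exp (p x)) f) := by
  have h1 := NormedSpace.exp_mem (R := ℂ) (closed_Pres S) hp f hf
  have h2 : ⇑(NormedSpace.exp p) = fun x => Complex.exp (p x) := by
    ext x
    rw [Complex.exp_eq_exp_ℂ]
    exact NormedSpace.map_exp (ContinuousMap.evalAlgHom ℂ ℂ x) (continuous_eval_const x) p
  rwa [h2] at h1

theorem exists_split {S : Set ℤ} (hS : ∀ k : ℤ, (∀ j ∈ S, j + k ∈ S) ∨ ∀ j ∈ S, j - k ∈ S)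
    (g : C(TT, ℂ)) {δ : ℝ} (hδ : 0 < δ) :
    ∃ p ∈ Pres S, ∃ q ∈ Pres S, ‖g - (p + star q)‖ < δ := by
  have h1 : ∀ k : ℤ, (∀ j ∈ S, j + k ∈ S) → fourier k ∈ Pres S := fun k hk f hf =>
    sh_VV.In (m := k) (fun j hj => by simpa using hk _ hj) hf
  have h2 : ∀ u ∈ Submodule.span ℂ (range (fourier (T := 2 * π))),
      ∃ p ∈ Pres S, ∃ q ∈ Pres S, u = p + star q := fun u hu => by
    induction hu using Submodule.span_induction with
    | mem x hx =>
      obtain ⟨k, rfl⟩ := hx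
      rcases hS k with h | h
      · exact ⟨_, h1 k h, 0, zero_mem _, by simp⟩
      · refine ⟨0, zero_mem _, _, h1 (-k) (by simpa [← sub_eq_add_neg] using h), ?_⟩
        ext x
        simp [-fourier_apply, fourier_neg]
    | zero => exact ⟨0, zero_mem _, 0, zero_mem _, by simp⟩
    | add x y _ _ a b =>
      obtain ⟨p, hp, q, hq, rfl⟩ := a
      obtain ⟨p', hp', q', hq', rfl⟩ := b
      exact ⟨_, add_mem hp hp', _, add_mem hq hq', by rw [star_add]; abel⟩
    | smul c x _ a =>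
      obtain ⟨p, hp, q, hq, rfl⟩ := a
      exact ⟨_, (Pres S).smul_mem hp c, _, (Pres S).smul_mem hq (star c), by simp⟩
  have hf : g ∈ closure (Submodule.span ℂ (range (fourier (T := 2 * π))) : Set C(TT, ℂ)) := by
    rw [← Submodule.topologicalClosure_coe, span_fourier_closure_eq_top]
    trivial
  obtain ⟨u, hu, h3⟩ := Metric.mem_closure_iff.mp hf δ hδ
  obtain ⟨p, hp, q, hq, rfl⟩ := h2 u hu
  exact ⟨p, hp, q, hq, by rwa [← dist_eq_norm]⟩

theorem re_pert {s z : ℂ} {κ C : ℝ} (hκ : 0 < κ) (h1 : κ ≤ s.re) (h2 : ‖s‖ ≤ C)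
    (h3 : ‖z‖ ≤ κ / (4 * C)) : κ / 2 ≤ (Complex.exp z * s).re := by
  have hC : κ ≤ C := h1.trans ((Complex.re_le_norm s).trans h2)
  have hC0 : 0 < C := hκ.trans_le hC
  have h4 := Complex.norm_exp_sub_one_le (x := z)
    (h3.trans ((div_le_one (by positivity)).mpr (by linarith)))
  have h5 : ‖(Complex.exp z - 1) * s‖ ≤ κ / 2 := by
    rw [norm_mul]
    calc _ ≤ (2 * (κ / (4 * C))) * C := by gcongr; linarith
      _ = κ / 2 := by field_simp; ring
  have h6 := (abs_le.mp ((Complex.abs_re_le_norm _).trans h5)).1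
  rw [sub_mul, one_mul, Complex.sub_re] at h6
  linarith

theorem inj_MM {S : Set ℤ} (hS : ∀ k : ℤ, (∀ j ∈ S, j + k ∈ S) ∨ ∀ j ∈ S, j - k ∈ S)
    {a : TT → ℂ} (ha : Bd a) (g : C(TT, ℂ)) {κ C : ℝ} (hκ : 0 < κ) (hC : 0 < C)
    (h : ∀ᵐ x ∂mu, κ ≤ (Complex.exp (-g x) * a x).re ∧ ‖Complex.exp (-g x) * a x‖ ≤ C)
    (f : HH) (hf : In ee S f) (h0 : Pr ee S (MM a f) = 0) : f = 0 := by
  obtain ⟨p, hp, q, hq, h1⟩ := exists_split hS g (δ := κ / (4 * C)) (by positivity)
  have b1 : Bd fun x => Complex.exp (p x) := Bd.of_cont (by fun_prop)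
  have b2 : Bd fun x => Complex.exp (-p x) := Bd.of_cont (by fun_prop)
  have b3 : Bd fun x => Complex.exp ((-q) x) := Bd.of_cont (by fun_prop)
  have c1 := exp_Pres hp hf
  have c2 := exp_Pres (neg_mem hq) c1
  set F := MM (fun x => Complex.exp (p x)) f with hF
  have c3 : MM (fun x => Complex.exp (-p x)) F = f := by
    rw [hF, MM_mul b2 b1]
    simp [← Complex.exp_add, MM_one]
  have c4 := MM_coer (b3.conj.mul (ha.mul b2)) (κ := κ / 2) (h.mono fun x hx => by
    have := re_pert hκ hx.1 hx.2 (((g - (p + star q)).norm_coe_le_norm x).trans h1.le)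
    convert this using 2
    simp only [← Complex.exp_conj, ContinuousMap.sub_apply, ContinuousMap.add_apply,
      ContinuousMap.neg_apply, ContinuousMap.star_apply, map_neg, Complex.star_def]
    rw [mul_comm (a x), ← mul_assoc, ← Complex.exp_add, ← mul_assoc, ← Complex.exp_add]
    congr 2
    ring) F
  rw [← MM_mul b3.conj (ha.mul b2), ← MM_mul ha b2, c3, MM_adj b3.conj] at c4
  simp only [Complex.conj_conj] at c4
  rw [← Pr_of_In ee c2, ← Pr_adj, h0, inner_zero_right, Complex.zero_re] at c4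
  have c5 : F = 0 := by
    rw [← norm_eq_zero, ← sq_eq_zero_iff]
    exact le_antisymm (nonpos_of_mul_nonpos_right c4 (by positivity)) (by positivity)
  rw [← c3, c5, map_zero]

end Pool.Agent.Lib.MP_af63cc_an
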