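import Pool.Agent.Lib.MP_af63cc_an.Abs

open Filter Topology Metric Set
open scoped ComplexConjugate InnerProductSpace

namespace Pool.Agent.Lib.MP_af63cc_an

variable {H : Type} [NormedAddCommGroup H] [InnerProductSpace ℂ H] [CompleteSpace H]
  (e : HilbertBasis ℤ ℂ H)

def Nuc (N : H →L[ℂ] H) : Prop := Summable fun p : ℤ × ℤ => ‖⟪e p.1, N (e p.2)⟫_ℂ‖

theorem Nuc.hasSum {N : H →L[ℂ] H} (h : Nuc e N) (w : H) :
    HasSum (fun p : ℤ × ℤ => (⟪e p.1, N (e p.2)⟫_ℂ * ⟪e p.2, w⟫_ℂ) • e p.1) (N w) := by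
  let r : ℤ × ℤ → H →L[ℂ] H := fun p =>
    ⟪e p.1, N (e p.2)⟫_ℂ • (innerSL ℂ (e p.2)).smulRight (e p.1)
  have hr : Summable r := Summable.of_norm_bounded h fun p => by
    simp [r, norm_smul, e.orthonormal.1]
  have h1 : ∀ w, HasSum (fun p : ℤ × ℤ => (⟪e p.1, N (e p.2)⟫_ℂ * ⟪e p.2, w⟫_ℂ) • e p.1)
      ((∑' p, r p) w) := fun w => by
    simpa [r, mul_smul] using (ContinuousLinearMap.apply ℂ H w).hasSum hr.hasSum
  have h2 : ∑' p, r p = N := by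
    refine ContinuousLinearMap.ext_on (s := range e)
      (Submodule.dense_iff_topologicalClosure_eq_top.mpr e.dense_span) ?_
    rintro _ ⟨l, rfl⟩
    refine ext_coef e fun k => ((innerSL ℂ (e k)).hasSum (h1 (e l))).unique ?_
    convert hasSum_single (k, l) _ using 1
    · simp [e.orthonormal.1]
    · rintro ⟨a, b⟩ hab
      simp only [innerSL_apply_apply, inner_smul_right, inner_e e b, inner_e e k]
      split_ifs with c1 c2
      · exact absurd (by rw [c1, c2]) hab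
      all_goals simp
  exact h2 ▸ h1 w

theorem Nuc.tendsto {N : H →L[ℂ] H} (h : Nuc e N) {ι : Type} {l : Filter ι} {f : ι → H} {C : ℝ}
    (hC : ∀ᶠ i in l, ‖f i‖ ≤ C) (hf : ∀ k, Tendsto (fun i => ⟪e k, f i⟫_ℂ) l (𝓝 0)) :
    Tendsto (fun i => N (f i)) l (𝓝 0) := by
  have := tendsto_tsum_of_dominated_convergence (𝓕 := l)
    (f := fun i (p : ℤ × ℤ) => (⟪e p.1, N (e p.2)⟫_ℂ * ⟪e p.2, f i⟫_ℂ) • e p.1)
    (g := fun _ => 0) (h.mul_right C)
    (fun p => by simpa using ((hf p.2).const_mul ⟪e p.1, N (e p.2)⟫_ℂ).smul_const (e p.1))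
    (hC.mono fun i hi p => by
      rw [norm_smul, norm_mul, e.orthonormal.1, mul_one]
      refine mul_le_mul_of_nonneg_left ((norm_inner_le_norm _ _).trans ?_) (norm_nonneg _)
      rwa [e.orthonormal.1, one_mul])
  simpa [(h.hasSum e _).tsum_eq] using this

structure Sh (V : ℤ → H →L[ℂ] H) : Prop where
  coef : ∀ m k f, ⟪e k, V m f⟫_ℂ = ⟪e (k - m), f⟫_ℂ
  adj : ∀ m u f, ⟪V m u, f⟫_ℂ = ⟪u, V (-m) f⟫_ℂ
  norm : ∀ m f, ‖V m f‖ = ‖f‖

variable {e} {V : ℤ → H →L[ℂ] H}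

omit [CompleteSpace H] in
theorem Sh.cancel (hV : Sh e V) (m : ℤ) (f : H) : V m (V (-m) f) = f :=
  ext_coef e fun k => by rw [hV.coef, hV.coef]; simp

omit [CompleteSpace H] in
theorem Sh.In (hV : Sh e V) {S S' : Set ℤ} {m : ℤ} (h : ∀ k, k - m ∈ S' → k ∈ S) {f : H}
    (hf : In e S' f) : In e S (V m f) := fun k hk => by
  rw [hV.coef]
  exact hf _ fun h' => hk (h k h')

theorem Sh.Pr (hV : Sh e V) {S S' : Set ℤ} {m : ℤ} (h : ∀ k, k ∈ S ↔ k - m ∈ S') (f : H) :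
    Pr e S (V m f) = V m (Pr e S' f) := ext_coef e fun k => by
  rw [coef_Pr, hV.coef, hV.coef, coef_Pr, h]

omit [CompleteSpace H] in
theorem Sh.cross (hV : Sh e V) {f g : ℕ → H} {f0 g0 : H} (hf : Tendsto f atTop (𝓝 f0))
    (hg : Tendsto g atTop (𝓝 g0)) :
    Tendsto (fun n : ℕ => ⟪f n, V n (g n)⟫_ℂ) atTop (𝓝 0) := by
  have h1 : ∀ k u, Tendsto (fun n : ℕ => ⟪e (k - n), u⟫_ℂ) atTop (𝓝 0) := fun k u => by
    refine tendsto_of_basis e (fun n : ℕ => innerSL ℂ (e (k - n))) 0 (C := 1)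
      (Eventually.of_forall fun n f => ?_) (fun j => tendsto_const_nhds.congr' ?_) u
    · simpa [e.orthonormal.1] using norm_inner_le_norm (𝕜 := ℂ) (e (k - n)) f
    · filter_upwards [eventually_gt_atTop (k - j).toNat] with n hn
      simp only [innerSL_apply_apply, inner_e, zero_apply]
      rw [if_neg (by omega)]
  have h2 : Tendsto (fun n : ℕ => ⟪V n g0, f0⟫_ℂ) atTop (𝓝 0) := by
    refine tendsto_of_basis e (fun n : ℕ => innerSL ℂ (V n g0)) 0 (C := ‖g0‖)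
      (Eventually.of_forall fun n f => ?_) (fun j => ?_) f0
    · simpa [hV.norm] using norm_inner_le_norm (𝕜 := ℂ) (V n g0) f
    · have := (Complex.continuous_conj.tendsto _).comp (h1 j g0)
      simp only [map_zero, ← hV.coef] at this
      refine this.congr fun n => ?_
      simp
  have h3 : Tendsto (fun n : ℕ => ⟪f0, V n g0⟫_ℂ) atTop (𝓝 ⟪f0, 0⟫_ℂ) := by
    have := (Complex.continuous_conj.tendsto _).comp h2
    rw [inner_zero_right]
    rw [map_zero] at this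
    refine this.congr fun n => ?_
    simp
  have h4 := tendsto_inner_weak (C := ‖g0‖) (Eventually.of_forall fun n => (hV.norm _ _).le) hf h3
  have h5 : Tendsto (fun n : ℕ => V n (g n - g0)) atTop (𝓝 0) := by
    rw [tendsto_zero_iff_norm_tendsto_zero]
    simp only [hV.norm]
    exact tendsto_iff_norm_sub_tendsto_zero.mp hg
  simpa [inner_sub_right] using (hf.inner (𝕜 := ℂ) h5).add h4

structure Fam (V : ℤ → H →L[ℂ] H) (A A' : ℕ → H →L[ℂ] H) (A0 A0' : H →L[ℂ] H) (C : ℝ) :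
    Prop where
  adj : ∀ i u f, ⟪u, A i f⟫_ℂ = ⟪A' i u, f⟫_ℂ
  adj0 : ∀ u f, ⟪u, A0 f⟫_ℂ = ⟪A0' u, f⟫_ℂ
  lim : ∀ u, Tendsto (fun i => A i u) atTop (𝓝 (A0 u))
  lim' : ∀ u, Tendsto (fun i => A' i u) atTop (𝓝 (A0' u))
  bd : ∀ i f, ‖A i f‖ ≤ C * ‖f‖
  comm : ∀ i m f, A i (V m f) = V m (A i f)

def Wl (n : ℕ) : Set ℤ := Ico 0 n
def Wr (n : ℕ) : Set ℤ := Ico (-n) 0

theorem Wl_lim (k : ℤ) : ∀ᶠ n in atTop, (k ∈ Wl n ↔ k ∈ Ici 0) := by
  filter_upwards [eventually_gt_atTop k.toNat] with n hn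
  simp only [Wl, mem_Ico, mem_Ici]
  omega

theorem Wr_lim (k : ℤ) : ∀ᶠ n in atTop, (k ∈ Wr n ↔ k ∈ Iio 0) := by
  filter_upwards [eventually_gt_atTop (-k).toNat] with n hn
  simp only [Wr, mem_Ico, mem_Iio]
  omega

theorem Wrl (n : ℕ) (k : ℤ) : k ∈ Wr n ↔ k - -n ∈ Wl n := by
  simp only [Wr, Wl, mem_Ico]
  omega

theorem Wlr (n : ℕ) (k : ℤ) : k ∈ Wl n ↔ k - n ∈ Wr n := by
  simp only [Wr, Wl, mem_Ico]
  omega

variable (e) in
def Stab (A : ℕ → H →L[ℂ] H) (D : ℝ) : Prop :=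
  ∀ᶠ n in atTop, ∀ f, In e (Wl n) f → ‖f‖ ≤ D * ‖Pr e (Wl n) (A n f)‖

theorem Pr_split (n : ℕ) (f : H) :
    f = Pr e (Wl n) f + Pr e (Iio 0) f + Pr e (Ici (n : ℤ)) f := ext_coef e fun k => by
  simp only [inner_add_right, coef_Pr, Wl, mem_Ico, mem_Iio, mem_Ici]
  split_ifs <;> first | omega | simp

theorem Pr_split2 (f : H) : f = Pr e (Iio 0) f + Pr e (Ici 0) f := ext_coef e fun k => by
  simp only [inner_add_right, coef_Pr, mem_Iio, mem_Ici]
  split_ifs <;> first | omega | simp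

theorem stab (hV : Sh e V) {A A' : ℕ → H →L[ℂ] H} {A0 A0' : H →L[ℂ] H} {C : ℝ}
    (hA : Fam V A A' A0 A0' C)
    (i1 : ∀ f, In e (Ici 0) f → Pr e (Ici 0) (A0 f) = 0 → f = 0)
    (i2 : ∀ f, In e (Iio 0) f → Pr e (Iio 0) (A0 f) = 0 → f = 0)
    {B : H →L[ℂ] H} (hB : ∀ m f, B (V m f) = V m (B f))
    (hN : Nuc e (Pr e (Iio 0) * B - B * Pr e (Iio 0))) {κ : ℝ} (hκ : 0 < κ)
    (hc : ∀ n f, κ * ‖f‖ ^ 2 ≤ (⟪B f, A n f⟫_ℂ).re) : ∃ D, Stab e A D := by
  by_contra hcon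
  have h0 : ∀ k : ℕ, ∃ᶠ n in atTop, ∃ f, In e (Wl n) f ∧ ‖f‖ = 1 ∧
      ‖Pr e (Wl n) (A n f)‖ ≤ 1 / ((k : ℝ) + 1) := fun k => by
    have := not_exists.mp hcon ((k : ℝ) + 1)
    rw [Stab, not_eventually] at this
    refine this.mono fun n hn => ?_
    push Not at hn
    obtain ⟨f, f1, f2⟩ := hn
    have f0 : 0 < ‖f‖ := lt_of_le_of_lt (by positivity) f2
    refine ⟨((‖f‖⁻¹ : ℝ) : ℂ) • f, fun j hj => by rw [inner_smul_right, f1 j hj, mul_zero],
      by simp [norm_smul, f0.ne'], ?_⟩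
    rw [map_smul, map_smul, norm_smul, Complex.norm_real, norm_inv, norm_norm,
      le_div_iff₀ (by positivity), mul_assoc, inv_mul_le_iff₀ f0]
    linarith
  obtain ⟨φ, hφ, h1⟩ := extraction_forall_of_frequently h0
  choose f f1 f2 f3 using h1
  have hU := Nat.hyperfilter_le_atTop
  have hT := hφ.tendsto_atTop.mono_left hU
  have hz : Tendsto (fun i => Pr e (Wl (φ i)) (A (φ i) (f i))) (hyperfilter ℕ) (𝓝 0) :=
    (squeeze_zero_norm f3 tendsto_one_div_add_atTop_nhds_zero_nat).mono_left hU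
  have b1 : ∀ᶠ i in hyperfilter ℕ, ‖f i‖ ≤ 1 := Eventually.of_forall fun i => (f2 i).le
  have b2 : ∀ᶠ i in hyperfilter ℕ, ‖V (-φ i) (f i)‖ ≤ 1 :=
    Eventually.of_forall fun i => by rw [hV.norm, f2]
  have g2 : ∀ i, In e (Wr (φ i)) (V (-φ i) (f i)) := fun i =>
    hV.In (fun k => (Wrl _ k).mpr) (f1 i)
  obtain ⟨g, hg⟩ := exists_weak _ f b1
  obtain ⟨g', hg'⟩ := exists_weak _ _ b2
  obtain ⟨c1, c2⟩ := weak_solves e (fun k => hT.eventually (Wl_lim k)) (fun i => hA.adj (φ i))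
    hA.adj0 (fun u => (hA.lim' u).comp hT) b1 hg (Eventually.of_forall f1) hz
  obtain ⟨c3, c4⟩ := weak_solves e (w := 0) (fun k => hT.eventually (Wr_lim k))
    (fun i => hA.adj (φ i)) hA.adj0 (fun u => (hA.lim' u).comp hT) b2 hg'
    (Eventually.of_forall g2) (by
      rw [tendsto_zero_iff_norm_tendsto_zero] at hz ⊢
      simpa only [hA.comm, hV.Pr (Wrl _), hV.norm] using hz)
  obtain rfl := i1 g c1 c2
  obtain rfl := i2 g' c3 c4
  have n1 := hN.tendsto e b1 fun k => by simpa using hg (e k)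
  have n2 := hN.tendsto e b2 fun k => by simpa using hg' (e k)
  have n3 : Tendsto (fun i => Pr e (Iio 0) (B (f i)) + Pr e (Ici (φ i : ℤ)) (B (f i)))
      (hyperfilter ℕ) (𝓝 0) := by
    rw [← add_zero (0 : H)]
    refine Tendsto.add (n1.congr fun i => ?_) ?_
    · simp [Pr_eq_zero e (S' := Iio 0) (f1 i) fun k hk h => absurd h.1 (not_le.mpr hk)]
    rw [tendsto_zero_iff_norm_tendsto_zero] at n2 ⊢
    refine n2.congr fun i => ?_
    have a1 : Pr e (Iio 0) (V (-φ i) (f i)) = V (-φ i) (f i) :=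
      Pr_of_In e fun k hk => g2 i k fun h => hk h.2
    have a2 := hV.Pr (S := Ici 0) (S' := Ici (φ i : ℤ)) (m := -φ i) (fun k => by simp) (B (f i))
    have a3 := Pr_split2 (e := e) (B (V (-φ i) (f i)))
    rw [← hV.norm (-φ i) (Pr e _ _), ← a2, ← hB, ← norm_neg]
    congr 1
    simp only [sub_apply, mul_apply_eq_comp, a1]
    rw [neg_sub, sub_eq_iff_eq_add']
    exact a3
  have k1 : Tendsto (fun i => ‖B‖ * ‖Pr e (Wl (φ i)) (A (φ i) (f i))‖ +
      ‖Pr e (Iio 0) (B (f i)) + Pr e (Ici (φ i : ℤ)) (B (f i))‖ * C) (hyperfilter ℕ) (𝓝 0) := by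
    simpa using (hz.norm.const_mul ‖B‖).add (n3.norm.mul_const C)
  refine absurd (ge_of_tendsto' k1 fun i => ?_) (not_le.mpr hκ)
  have a1 := hc (φ i) (f i)
  rw [f2, Pr_split (e := e) (φ i) (B (f i)), add_assoc, inner_add_left, ← Pr_adj] at a1
  have a2 := hA.bd (φ i) (f i)
  have a3 := B.le_opNorm (f i)
  rw [f2, mul_one] at a2 a3
  rw [one_pow, mul_one] at a1
  refine a1.trans ((Complex.re_le_norm _).trans ((norm_add_le _ _).trans (add_le_add ?_ ?_)))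
  · exact (norm_inner_le_norm _ _).trans (mul_le_mul_of_nonneg_right a3 (norm_nonneg _))
  · exact (norm_inner_le_norm _ _).trans (mul_le_mul_of_nonneg_left a2 (norm_nonneg _))

end Pool.Agent.Lib.MP_af63cc_an
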