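import Pool.Agent.Lib.MP_af63cc_an.Loc
import Pool.Agent.Lib.MP_af63cc_an.Defs

open Filter Topology Metric Set MeasureTheory AddCircle Complex
open scoped ComplexConjugate InnerProductSpace Real ContDiff

namespace Pool.Agent.Lib.MP_af63cc_an

theorem toC (x : ℝ) : toCircle (x : TT) = Circle.exp x := by
  rw [toCircle_apply_mk, div_self Real.two_pi_pos.ne', one_mul]

theorem toepDet_eq {a : Circle → ℂ} (ha : Bd fun x => a (toCircle x)) (n : ℕ) :
    toepDet n a = (mat ee n (MM fun x => a (toCircle x))).det := by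
  rw [toepDet, mat]
  congr 2
  ext p q
  rw [inner_MM ha, fourierCoeff_eq_intervalIntegral _ _ 0, coef, zero_add, real_smul]
  push_cast
  congr 2
  ext x
  rw [toC, fourier_coe_apply, smul_eq_mul, mul_comm]
  congr 2
  have : (π : ℂ) ≠ 0 := ofReal_ne_zero.mpr Real.pi_ne_zero
  push_cast
  field_simp

theorem sm_iff {a : Circle → ℂ} :
    (Sm fun x => a (toCircle x)) ↔ ContDiff ℝ ∞ fun x : ℝ => a (Circle.exp x) := by
  simp only [Sm, toC]

theorem exists_log {b : Circle → ℂ} (hb : Admissible b) :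
    ∃ g : C(TT, ℂ), ∀ x, exp (g x) = b (toCircle x) := by
  obtain ⟨h1, h2, h3⟩ := hb
  set B := fun y : ℝ => b (Circle.exp y) with hB
  have hp : Function.Periodic B (2 * π) := fun x => by simp only [hB, Circle.periodic_exp x]
  have hc : Continuous fun x => deriv B x / B x :=
    (h1.continuous_deriv (by simp)).div h1.continuous fun x => h2 _
  have hq : Function.Periodic (fun x => deriv B x / B x) (2 * π) := fun x => by
    simp only [hp x]
    rw [← deriv_comp_add_const]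
    simp only [hp _]
  let G : ℝ → ℂ := fun x => log (B 0) + ∫ y in (0 : ℝ)..x, deriv B y / B y
  have hG : ∀ x, HasDerivAt G (deriv B x / B x) x := fun x =>
    (hc.integral_hasStrictDerivAt 0 x).hasDerivAt.const_add _
  have hGp : Function.Periodic G (2 * π) := fun x => by
    simp only [G]
    rw [← intervalIntegral.integral_add_adjacent_intervals (hc.intervalIntegrable 0 x)
      (hc.intervalIntegrable x _), hq.intervalIntegral_add_eq x 0, zero_add, h3, add_zero]
  have hd : ∀ x, HasDerivAt (fun x => B x * exp (-G x)) 0 x := fun x =>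
    (((h1.differentiable (by simp) x).hasDerivAt).mul (hG x).neg.cexp).congr_deriv (by
      have : B x ≠ 0 := h2 (Circle.exp x)
      simp only [Pi.neg_apply]
      field_simp
      ring)
  refine ⟨⟨hGp.lift, cont_of (continuous_iff_continuousAt.mpr fun x => (hG x).continuousAt)⟩,
    fun x => ?_⟩
  induction x using QuotientAddGroup.induction_on with | H x => ?_
  have := is_const_of_deriv_eq_zero (fun x => (hd x).differentiableAt) (fun x => (hd x).deriv) x 0
  have h0 : B 0 ≠ 0 := h2 _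
  simp only [G, intervalIntegral.integral_same, add_zero, exp_neg (log _), exp_log h0] at this
  rw [mul_inv_cancel₀ h0, exp_neg, mul_inv_eq_one₀ (exp_ne_zero _)] at this
  rw [toC]
  exact this.symm

theorem norm_w (z t : Circle) : ‖-(z : ℂ) / (t : ℂ)‖ = 1 := by simp [Circle.norm_coe]

theorem w_ne (z t : Circle) : -(z : ℂ) / (t : ℂ) ≠ 0 := by simp

theorem slit {z t : Circle} (h : z ≠ t) : -(z : ℂ) / (t : ℂ) ∈ slitPlane := by
  refine mem_slitPlane_iff_arg.mpr ⟨fun h1 => h (Circle.ext ?_), w_ne z t⟩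
  have := norm_mul_exp_arg_mul_I (-(z : ℂ) / (t : ℂ))
  rw [h1, norm_w, exp_pi_mul_I, eq_div_iff t.coe_ne_zero] at this
  simpa using this.symm

theorem prod_bound {R : ℕ} (β : Fin R → ℂ) (hβ : ∑ r, |(β r).re| < 1 / 2) :
    ∃ κ M : ℝ, 0 < κ ∧ ∀ (t : Fin R → Circle) (z : Circle),
      κ ≤ (∏ r, (-(z : ℂ) / (t r : ℂ)) ^ β r).re ∧ ‖∏ r, (-(z : ℂ) / (t r : ℂ)) ^ β r‖ ≤ M := by
  have hγ : π * ∑ r, |(β r).re| < π / 2 := by nlinarith [Real.pi_pos]
  have hγ0 : 0 ≤ π * ∑ r, |(β r).re| := by positivity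
  have hcos := Real.cos_pos_of_mem_Ioo (x := π * ∑ r, |(β r).re|) ⟨by linarith, hγ⟩
  refine ⟨Real.exp (-(π * ∑ r, |(β r).im|)) * Real.cos (π * ∑ r, |(β r).re|),
    Real.exp (π * ∑ r, |(β r).im|), by positivity, fun t z => ?_⟩
  simp only [cpow_def_of_ne_zero (w_ne z _), ← exp_sum]
  have a : ∀ (y : Fin R → ℝ), |∑ r, arg (-(z : ℂ) / (t r : ℂ)) * y r| ≤ π * ∑ r, |y r| := by
    intro y
    rw [Finset.mul_sum]
    refine (Finset.abs_sum_le_sum_abs _ _).trans (Finset.sum_le_sum fun r _ => ?_)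
    rw [abs_mul]
    exact mul_le_mul_of_nonneg_right (abs_arg_le_pi _) (abs_nonneg _)
  have a1 : (∑ r, log (-(z : ℂ) / (t r : ℂ)) * β r).re =
      -∑ r, arg (-(z : ℂ) / (t r : ℂ)) * (β r).im := by
    simp only [re_sum, mul_re, log_re, log_im, norm_w, Real.log_one, zero_mul, zero_sub,
      Finset.sum_neg_distrib]
  have a2 : (∑ r, log (-(z : ℂ) / (t r : ℂ)) * β r).im =
      ∑ r, arg (-(z : ℂ) / (t r : ℂ)) * (β r).re := by
    simp only [im_sum, mul_im, log_re, log_im, norm_w, Real.log_one, zero_mul, zero_add]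
  have a3 := abs_le.mp (a fun r => (β r).im)
  rw [exp_re, norm_exp, a1, a2]
  refine ⟨mul_le_mul (Real.exp_le_exp.mpr (by linarith)) ?_ hcos.le (Real.exp_pos _).le,
    Real.exp_le_exp.mpr (by linarith)⟩
  rw [← Real.cos_abs (∑ r, _)]
  exact Real.cos_le_cos_of_nonneg_of_le_pi (abs_nonneg _) (by linarith [Real.pi_pos]) (a _)

theorem ae_ne (t : Circle) : ∀ᵐ x ∂mu, toCircle x ≠ t := by
  obtain ⟨y, rfl⟩ := Circle.exp_surjective t
  have h1 := volume_closedBall (2 * π) (x := (y : TT)) 0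
  rw [volume_eq_smul_haarAddCircle, closedBall_zero] at h1
  have h2 : mu {(y : TT)} = 0 := by simpa [Real.pi_pos.le, Real.pi_pos.not_ge] using h1
  filter_upwards [measure_eq_zero_iff_ae_notMem.mp h2] with x hx h
  exact hx (injective_toCircle Real.two_pi_pos.ne' (h.trans (toC y).symm))

theorem good_symb {R : ℕ} {b : Circle → ℂ} (hb : Admissible b) {β : Fin R → ℂ}
    (hβ : ∑ r, |(β r).re| < 1 / 2) {t : ℕ → Fin R → Circle} {t0 : Circle}
    (ht : ∀ r, Tendsto (fun n => t n r) atTop (𝓝 t0)) :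
    ∃ C, Good (fun n x => symb b β (t n) (toCircle x))
      (fun x => symb b β (fun _ => t0) (toCircle x)) C := by
  obtain ⟨κ, M, hκ, h⟩ := prod_bound β hβ
  obtain ⟨g, hg⟩ := exists_log hb
  let E : C(TT, ℂ) := ⟨fun x => b (toCircle x), cont_of (sm_iff.mpr hb.1).continuous⟩
  have h1 : ∀ s x, ‖symb b β s (toCircle x)‖ ≤ ‖E‖ * M := fun s x => by
    rw [symb, norm_mul]
    exact mul_le_mul (E.norm_coe_le_norm x) (h s _).2 (norm_nonneg _) (norm_nonneg _)
  have h2 : ∀ s, Bd fun x => symb b β s (toCircle x) := fun s => by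
    refine memLp_top_of_bound (Measurable.aestronglyMeasurable ?_) _
      (Eventually.of_forall (h1 s))
    refine E.continuous.measurable.mul (Finset.measurable_prod _ fun r _ => ?_)
    exact (Continuous.measurable (by have := @continuous_toCircle (2 * π); fun_prop)).pow_const _
  refine ⟨_, fun n => h2 _, h2 _, fun n => h1 _, (ae_ne t0).mono fun x hx => ?_, g, κ, hκ, ?_,
    fun n x => ?_⟩
  · refine tendsto_const_nhds.mul (tendsto_finsetProd _ fun r _ => ?_)
    exact (tendsto_const_nhds.div ((continuous_subtype_val.tendsto _).comp (ht r))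
      t0.coe_ne_zero).cpow tendsto_const_nhds (slit hx)
  · simp only [exp_neg, hg]
    exact (sm_iff.mpr hb.1).inv fun x => hb.2.1 _
  · rw [symb, exp_neg, hg, inv_mul_cancel_left₀ (hb.2.1 _)]
    exact (h _ _).1

theorem sm_exp : ContDiff ℝ ∞ fun x : ℝ => (Circle.exp x : ℂ) := by
  simp only [Circle.coe_exp]
  exact (ofRealCLM.contDiff.mul contDiff_const).cexp

theorem sm_local {R : ℕ} {b ψ : Circle → ℂ} (hb : Admissible b) (β : Fin R → ℂ) {t0 : Circle}
    (hψ : ContDiff ℝ ∞ fun x : ℝ => ψ (Circle.exp x)) (h0 : ∀ᶠ z in 𝓝 t0, ψ z = 0) :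
    Sm fun x => ψ (toCircle x) * symb b β (fun _ => t0) (toCircle x) := by
  refine (sm_iff (a := fun z => ψ z * symb b β (fun _ => t0) z)).mpr
    (contDiff_iff_contDiffAt.mpr fun x => ?_)
  by_cases hx : Circle.exp x = t0
  · refine (contDiffAt_const (c := 0)).congr_of_eventuallyEq ?_
    filter_upwards [(Circle.exp.continuous.tendsto x).eventually (hx ▸ h0)] with y hy
    simp [hy]
  refine hψ.contDiffAt.mul (hb.1.contDiffAt.mul (contDiffAt_prod fun r _ => ?_))
  simp only [cpow_def_of_ne_zero (w_ne _ _)]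
  exact ((((contDiffAt_log (slit hx)).restrict_scalars ℝ).comp x
    (sm_exp.neg.div_const _).contDiffAt).mul contDiffAt_const).cexp

theorem const_local {R : ℕ} (b : Circle → ℂ) {ψ : Circle → ℂ} (β : Fin R → ℂ)
    {t : ℕ → Fin R → Circle} {t0 : Circle} (ht : ∀ r, Tendsto (fun n => t n r) atTop (𝓝 t0))
    (h0 : ∀ᶠ z in 𝓝 t0, ψ z = 0) : ∃ c : ℕ → ℂ, ∃ c0, Tendsto c atTop (𝓝 c0) ∧
      ∀ᶠ n in atTop, ∀ z, ψ z * symb b β (t n) z = c n * (ψ z * symb b β (fun _ => t0) z) := by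
  obtain ⟨U, hU, hUo, hU0⟩ := _root_.eventually_nhds_iff.mp h0
  have key : ∀ᶠ s : Circle in 𝓝 t0, ∀ z ∈ Uᶜ,
      arg (-(z : ℂ) / (t0 : ℂ)) + arg ((t0 : ℂ) / (s : ℂ)) ∈ Ioc (-π) π := by
    refine hUo.isClosed_compl.isCompact.eventually_forall_of_forall_eventually fun z hz => ?_
    have hs := slit (z := z) (t := t0) fun h => hz (h ▸ hU0)
    have c1 : ContinuousAt (fun p : Circle × Circle => arg (-(p.2 : ℂ) / (t0 : ℂ)) +
        arg ((t0 : ℂ) / (p.1 : ℂ))) (t0, z) :=
      (ContinuousAt.comp (f := fun p : Circle × Circle => -(p.2 : ℂ) / (t0 : ℂ))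
        (continuousAt_arg hs) (by fun_prop)).add
        (ContinuousAt.comp (f := fun p : Circle × Circle => (t0 : ℂ) / (p.1 : ℂ))
          (continuousAt_arg (by simp))
          (ContinuousAt.div (by fun_prop) (by fun_prop) t0.coe_ne_zero))
    refine c1.eventually (Ioc_mem_nhds ?_ ?_)
    · simpa using neg_pi_lt_arg _
    · simpa using (arg_le_pi _).lt_of_ne (mem_slitPlane_iff_arg.mp hs).1
  refine ⟨fun n => ∏ r, ((t0 : ℂ) / (t n r : ℂ)) ^ β r, _, tendsto_finsetProd _ fun r _ =>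
    (tendsto_const_nhds.div ((continuous_subtype_val.tendsto _).comp (ht r))
      t0.coe_ne_zero).cpow tendsto_const_nhds (by simp), ?_⟩
  filter_upwards [eventually_all.mpr fun r => (ht r).eventually key] with n hn z
  by_cases hz : z ∈ U
  · simp [hU z hz]
  have : ∀ r, (-(z : ℂ) / (t n r : ℂ)) ^ β r =
      (-(z : ℂ) / (t0 : ℂ)) ^ β r * ((t0 : ℂ) / (t n r : ℂ)) ^ β r := fun r => by
    rw [cpow_def_of_ne_zero (w_ne _ _), cpow_def_of_ne_zero (w_ne _ _),
      cpow_def_of_ne_zero (by simp), ← exp_add, ← add_mul,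
      ← log_mul (w_ne _ _) (by simp) (hn r z hz), div_mul_div_cancel₀ t0.coe_ne_zero]
  simp only [symb, this, Finset.prod_mul_distrib]
  ring

theorem exists_cutoff {t0 t1 : Circle} (h : t0 ≠ t1) : ∃ φ : Circle → ℂ,
    (ContDiff ℝ ∞ fun x : ℝ => φ (Circle.exp x)) ∧ (∀ᶠ z in 𝓝 t0, 1 - φ z = 0) ∧
      ∀ᶠ z in 𝓝 t1, φ z = 0 := by
  have hd : 0 < ‖(t1 : ℂ) - t0‖ ^ 2 :=
    pow_pos (norm_pos_iff.mpr (sub_ne_zero.mpr fun e => h (Circle.ext e).symm)) 2
  let ρ : Circle → ℝ := fun z => 2 - 3 * (‖(z : ℂ) - t0‖ ^ 2 / ‖(t1 : ℂ) - t0‖ ^ 2)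
  have hc : Continuous ρ := by fun_prop
  refine ⟨fun z => (Real.smoothTransition (ρ z) : ℝ), ofRealCLM.contDiff.comp
    (Real.smoothTransition.contDiff.comp (contDiff_const.sub (contDiff_const.mul
      (((sm_exp.sub contDiff_const).norm_sq ℝ).div_const _)))), ?_, ?_⟩
  · filter_upwards [(hc.tendsto t0).eventually (lt_mem_nhds (a := 1) (by simp [ρ]))] with z hz
    simp [Real.smoothTransition.one_of_one_le hz.le]
  · filter_upwards [(hc.tendsto t1).eventually (gt_mem_nhds (a := 0)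
      (by simp only [ρ, div_self hd.ne']; norm_num))] with z hz
    simp [Real.smoothTransition.zero_of_nonpos hz.le]

end Pool.Agent.Lib.MP_af63cc_an
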